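import Pool.Agent.GD.Defs
import Pool.Agent.KZ.Top.Exact

/-!
# GD, TOP: the vector valued form of a form of the level `J`

The variables are `φ (inl ⟨i, r⟩)`, `i < J`, `r < c i` (the blocks `Z_i`) and `φ (inr t)`, `t < m` (the
space `W`).  `Gam φ f a` is the coefficient of `∏ i, x (i, a i)` in `f`, a form in the last `m`
variables.
-/

set_option autoImplicit false
set_option linter.unusedSectionVars false

namespace Pool.Agent.GD.Top

open Finset Module MvPolynomial Pool.Agent.H51.TB Pool.Agent.GD Pool.Agent.H54.V7 Pool.Agent.V7.ST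
open Pool.Agent.H18.Ex (tcr)
open Pool.Agent.V7 (msk)

/-- The variables of the blocks. -/
abbrev Bl (c : ℕ → ℕ) (J : ℕ) : Type := (i : Fin J) × Fin (c i)

/-- The indices of the coefficient vectors. -/
abbrev TI (c : ℕ → ℕ) (J : ℕ) : Type := (i : Fin J) → Fin (c i)

variable {ν : Type} [Fintype ν] [DecidableEq ν] {c : ℕ → ℕ} {J m : ℕ}

/-- The exponent of `∏ i, x (i, a i)` times a monomial in the last variables. -/
def HasX (φ : Bl c J ⊕ Fin m ≃ ν) (a : TI c J) (e : ν → ℕ) : Prop :=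
  ∀ x : Bl c J, e (φ (Sum.inl x)) = if x.2 = a x.1 then 1 else 0

instance (φ : Bl c J ⊕ Fin m ≃ ν) (a : TI c J) (e : ν → ℕ) : Decidable (HasX φ a e) := by
  unfold HasX
  infer_instance

/-- The exponents of the last variables. -/
noncomputable def zp (φ : Bl c J ⊕ Fin m ≃ ν) (e : ν → ℕ) : Fin m →₀ ℕ :=
  Finsupp.equivFunOnFinite.symm fun t => e (φ (Sum.inr t))

theorem zp_apply (φ : Bl c J ⊕ Fin m ≃ ν) (e : ν → ℕ) (t : Fin m) :
    zp φ e t = e (φ (Sum.inr t)) := rfl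

/-- The vector valued form. -/
noncomputable def Gam (φ : Bl c J ⊕ Fin m ≃ ν) {A : Finset (ν → ℕ)} :
    ({e // e ∈ A} → ℂ) →ₗ[ℂ] (TI c J → MvPolynomial (Fin m) ℂ) :=
  LinearMap.pi fun a => ∑ e : {e // e ∈ A},
    if HasX φ a e.1 then (monomial (zp φ e.1)).comp (LinearMap.proj e) else 0

theorem Gam_apply (φ : Bl c J ⊕ Fin m ≃ ν) {A : Finset (ν → ℕ)} (f : {e // e ∈ A} → ℂ)
    (a : TI c J) : Gam φ f a =
      ∑ e : {e // e ∈ A}, if HasX φ a e.1 then monomial (zp φ e.1) (f e) else 0 := by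
  simp only [Gam, LinearMap.pi_apply, LinearMap.sum_apply]
  refine sum_congr rfl fun e _ => ?_
  split_ifs
  · rfl
  · rfl

theorem sum_split (φ : Bl c J ⊕ Fin m ≃ ν) (e : ν → ℕ) :
    ∑ s, e s = ∑ x, e (φ (Sum.inl x)) + ∑ t, e (φ (Sum.inr t)) := by
  rw [← φ.sum_comp, Fintype.sum_sum_type]

theorem sum_one (a : TI c J) : ∑ x : Bl c J, (if x.2 = a x.1 then 1 else 0) = J := by
  rw [Fintype.sum_sigma]
  simp

theorem HasX.sum {φ : Bl c J ⊕ Fin m ≃ ν} {a : TI c J} {e : ν → ℕ} (h : HasX φ a e) :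
    ∑ x, e (φ (Sum.inl x)) = J := by
  have h1 : ∀ x : Bl c J, e (φ (Sum.inl x)) = if x.2 = a x.1 then 1 else 0 := h
  simp only [h1]
  exact sum_one a

theorem Gam_hom (φ : Bl c J ⊕ Fin m ≃ ν) {D : ℕ} (β : ν → ℕ) (I : Finset ℕ)
    (f : {e // e ∈ Ex β D I} → ℂ) (a : TI c J) : (Gam φ f a).IsHomogeneous (D - J) := by
  rw [Gam_apply]
  refine IsHomogeneous.sum _ _ _ fun e _ => ?_
  split_ifs with h
  · apply isHomogeneous_monomial
    have h1 := (mem_Ex.1 e.2).1
    rw [sum_split φ, h.sum] at h1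
    rw [Finsupp.degree_eq_sum]
    simp only [zp_apply]
    omega
  · exact isHomogeneous_zero _ _ _

/-- Two exponents with the same `x`-part and `z`-part are equal. -/
theorem ext_HasX {φ : Bl c J ⊕ Fin m ≃ ν} {a : TI c J} {e e' : ν → ℕ}
    (h : HasX φ a e) (h' : HasX φ a e') (hz : zp φ e = zp φ e') : e = e' := by
  funext s
  obtain ⟨x, rfl⟩ := φ.surjective s
  rcases x with x | t
  · rw [h x, h' x]
  · exact DFunLike.congr_fun hz t

theorem coeff_Gam (φ : Bl c J ⊕ Fin m ≃ ν) {A : Finset (ν → ℕ)}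
    (f : {e // e ∈ A} → ℂ) (a : TI c J) (e : {e // e ∈ A}) (h : HasX φ a e.1) :
    coeff (zp φ e.1) (Gam φ f a) = f e := by
  classical
  rw [Gam_apply, coeff_sum, sum_eq_single e]
  · rw [if_pos h, coeff_monomial, if_pos rfl]
  · intro e' _ hne
    split_ifs with h'
    · rw [coeff_monomial, if_neg]
      intro h1
      exact hne (Subtype.ext (ext_HasX h' h h1))
    · exact coeff_zero _
  · intro h1
    exact absurd (mem_univ e) h1

/-- The block numbers are as expected. -/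
def IsB (φ : Bl c J ⊕ Fin m ≃ ν) (β : ν → ℕ) : Prop :=
  (∀ x : Bl c J, β (φ (Sum.inl x)) = x.1) ∧ ∀ t, J ≤ β (φ (Sum.inr t))

theorem exists_HasX {φ : Bl c J ⊕ Fin m ≃ ν} {β : ν → ℕ} (hβ : IsB φ β) {D : ℕ}
    {e : ν → ℕ} (he : e ∈ Ex β D (range J)) (h : ∑ x, e (φ (Sum.inl x)) ≤ J) :
    ∃ a : TI c J, HasX φ a e := by
  classical
  have h1 : ∀ i : Fin J, ∃ r : Fin (c i), e (φ (Sum.inl ⟨i, r⟩)) ≠ 0 := by
    intro i
    obtain ⟨s, hs, hs'⟩ := (mem_Ex.1 he).2 i (mem_range.2 i.2)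
    obtain ⟨x, rfl⟩ := φ.surjective s
    rcases x with ⟨i', r⟩ | t
    · have h2 := hβ.1 ⟨i', r⟩
      rw [hs] at h2
      have h3 : i = i' := Fin.ext h2
      subst h3
      exact ⟨r, hs'⟩
    · have h2 := hβ.2 t
      have := i.2
      omega
  choose a ha using h1
  refine ⟨a, ?_⟩
  rw [Fintype.sum_sigma] at h
  have h2 : ∀ i : Fin J, 1 ≤ ∑ r : Fin (c i), e (φ (Sum.inl ⟨i, r⟩)) := by
    intro i
    refine le_trans ?_ (single_le_sum (f := fun r : Fin (c i) => e (φ (Sum.inl ⟨i, r⟩)))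
      (fun _ _ => Nat.zero_le _) (mem_univ (a i)))
    have := ha i
    omega
  have h3 : ∀ i : Fin J, ∑ r : Fin (c i), e (φ (Sum.inl ⟨i, r⟩)) = 1 := by
    have h4 : ∑ _i : Fin J, 1 ≤ ∑ i : Fin J, ∑ r : Fin (c i), e (φ (Sum.inl ⟨i, r⟩)) :=
      sum_le_sum fun i _ => h2 i
    have h5 : ∑ _i : Fin J, 1 = ∑ i : Fin J, ∑ r : Fin (c i), e (φ (Sum.inl ⟨i, r⟩)) := by
      apply le_antisymm h4
      rw [sum_const, card_univ, Fintype.card_fin, smul_eq_mul, mul_one]
      exact h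
    intro i
    exact ((sum_eq_sum_iff_of_le fun i _ => h2 i).1 h5 i (mem_univ i)).symm
  rintro ⟨i, r⟩
  show e (φ (Sum.inl ⟨i, r⟩)) = if r = a i then 1 else 0
  have h4 := h3 i
  rw [← add_sum_erase _ _ (mem_univ (a i))] at h4
  have h5 := ha i
  split_ifs with hr
  · rw [hr]
    omega
  · have h6 : e (φ (Sum.inl ⟨i, r⟩)) ≤
        ∑ r ∈ univ.erase (a i), e (φ (Sum.inl ⟨i, r⟩)) :=
      single_le_sum (f := fun r : Fin (c i) => e (φ (Sum.inl ⟨i, r⟩))) (fun _ _ => Nat.zero_le _)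
        (mem_erase.2 ⟨hr, mem_univ r⟩)
    omega

theorem sum_blocks {φ : Bl c J ⊕ Fin m ≃ ν} {β : ν → ℕ} (hβ : IsB φ β) (e : ν → ℕ) :
    ∑ s ∈ univ.filter (fun s => β s < J), e s = ∑ x, e (φ (Sum.inl x)) := by
  classical
  rw [sum_filter, ← φ.sum_comp, Fintype.sum_sum_type]
  have h2 : ∑ t, (if β (φ (Sum.inr t)) < J then e (φ (Sum.inr t)) else 0) = 0 := by
    apply sum_eq_zero
    intro t _
    rw [if_neg]
    have := hβ.2 t
    omega
  rw [h2, add_zero]
  refine sum_congr rfl fun x _ => ?_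
  rw [if_pos]
  rw [hβ.1 x]
  exact x.1.2

/-- The coefficients of the monomials of `x`-degree `J` vanish if the vector valued form does. -/
theorem Gam_zero {φ : Bl c J ⊕ Fin m ≃ ν} {β : ν → ℕ} (hβ : IsB φ β) {D : ℕ}
    (f : {e // e ∈ Ex β D (range J)} → ℂ) (hf : Gam φ f = 0)
    (e : {e // e ∈ Ex β D (range J)})
    (he : ∑ s ∈ univ.filter (fun s => β s < J), e.1 s ≤ J) : f e = 0 := by
  classical
  rw [sum_blocks hβ] at he
  obtain ⟨a, ha⟩ := exists_HasX hβ e.2 he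
  rw [← coeff_Gam φ f a e ha, hf]
  exact coeff_zero _

theorem eval_Gam (φ : Bl c J ⊕ Fin m ≃ ν) {A : Finset (ν → ℕ)}
    (f : {e // e ∈ A} → ℂ) (a : TI c J) (z : Fin m → ℂ) :
    eval z (Gam φ f a) =
      ∑ e : {e // e ∈ A}, if HasX φ a e.1 then f e * ∏ t, z t ^ e.1 (φ (Sum.inr t)) else 0 := by
  rw [Gam_apply, map_sum]
  refine sum_congr rfl fun e _ => ?_
  split_ifs
  · rw [eval_monomial, Finsupp.prod_fintype _ _ (fun t => pow_zero _)]
    rfl
  · exact map_zero _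

/-- The solutions whose coefficient vectors lie in `F`. -/
noncomputable def SF (φ : Bl c J ⊕ Fin m ≃ ν) {A : Finset (ν → ℕ)}
    (V : Submodule ℂ ({e // e ∈ A} → ℂ)) (F : Submodule ℂ (TI c J → ℂ)) :
    Submodule ℂ ({e // e ∈ A} → ℂ) where
  carrier := {f | f ∈ V ∧ ∀ α, (fun a => coeff α (Gam φ f a)) ∈ F}
  add_mem' := by
    rintro f f' ⟨h1, h2⟩ ⟨h3, h4⟩
    refine ⟨V.add_mem h1 h3, fun α => ?_⟩
    have h5 : (fun a => coeff α (Gam φ (f + f') a)) =
        (fun a => coeff α (Gam φ f a)) + fun a => coeff α (Gam φ f' a) := by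
      funext a
      simp
    rw [h5]
    exact F.add_mem (h2 α) (h4 α)
  zero_mem' := by
    refine ⟨V.zero_mem, fun α => ?_⟩
    have h5 : (fun a => coeff α (Gam φ (0 : {e // e ∈ A} → ℂ) a)) = 0 := by
      funext a
      simp
    rw [h5]
    exact F.zero_mem
  smul_mem' := by
    rintro x f ⟨h1, h2⟩
    refine ⟨V.smul_mem x h1, fun α => ?_⟩
    have h5 : (fun a => coeff α (Gam φ (x • f) a)) = x • fun a => coeff α (Gam φ f a) := by
      funext a
      simp
    rw [h5]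
    exact F.smul_mem x (h2 α)

theorem mem_SF (φ : Bl c J ⊕ Fin m ≃ ν) {A : Finset (ν → ℕ)}
    (V : Submodule ℂ ({e // e ∈ A} → ℂ)) (F : Submodule ℂ (TI c J → ℂ)) (f : {e // e ∈ A} → ℂ) :
    f ∈ SF φ V F ↔ f ∈ V ∧ ∀ α, (fun a => coeff α (Gam φ f a)) ∈ F := Iff.rfl

theorem SF_mono (φ : Bl c J ⊕ Fin m ≃ ν) {A : Finset (ν → ℕ)}
    {V V' : Submodule ℂ ({e // e ∈ A} → ℂ)} {F F' : Submodule ℂ (TI c J → ℂ)} (hV : V ≤ V')
    (hF : F ≤ F') : SF φ V F ≤ SF φ V' F' := fun _ hf => ⟨hV hf.1, fun α => hF (hf.2 α)⟩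

/-! ### The conditions of an ordinary object -/

theorem mem_ord {d D : ℕ} {β : ν → ℕ} {I : Finset ℕ} {A : Finset (ν → ℕ)} (e : ℕ) (B : Finset ℕ)
    (q : ν × Fin (d + 1) → ℂ) (f : {a // a ∈ A} → ℂ) :
    f ∈ (LSA d D β I A).V (fun _ : Unit => Kd.ord e B) (fun _ => q) ↔
      ∀ b : ν → ℕ, ∑ s, b s + e ≤ D →
        ∑ a : {a // a ∈ A}, f a * tcr (msk β B fun s => q (s, 0)) a.1 b = 0 := by
  have key : ∀ (a b : ν → ℕ), eval q (tcr (pt (d := d) β (Kd.ord e B) 0
      fun s => (X s : MvPolynomial (ν × Fin (d + 1)) ℂ)) a b) =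
        tcr (msk β B fun s => q (s, 0)) a b := by
    intro a b
    unfold tcr
    rw [map_prod]
    refine prod_congr rfl fun s _ => ?_
    rw [map_mul, map_pow, map_natCast]
    congr 2
    simp only [pt, msk]
    split_ifs
    · rw [map_zero]
    · rw [eval_X]
  rw [Sys.mem_V]
  constructor
  · intro h b hb
    have h1 := h () (Sum.inl ⟨(0, b), Nat.zero_lt_one, hb⟩)
    rw [← h1]
    refine sum_congr rfl fun a _ => ?_
    rw [mul_comm]
    congr 1
    exact (key a.1 b).symm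
  · rintro h - (⟨⟨x, b⟩, hx, hb⟩ | r)
    · have hx' : x.1 < 1 := hx
      have hx0 : x = 0 := Fin.ext (by
        show x.1 = 0
        omega)
      subst hx0
      have h1 := h b hb
      rw [← h1]
      refine sum_congr rfl fun a _ => ?_
      rw [mul_comm]
      congr 1
      exact key a.1 b
    · exact r.elim

/-- The position of a point on all the subspaces. -/
noncomputable def posz (d : ℕ) (φ : Bl c J ⊕ Fin m ≃ ν) (z : Fin m → ℂ) : ν × Fin (d + 1) → ℂ :=
  fun s => Sum.elim (fun _ => 0) z (φ.symm s.1)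

/-- The conditions of a point on all the subspaces. -/
theorem htop {φ : Bl c J ⊕ Fin m ≃ ν} {β : ν → ℕ} (hβ : IsB φ β) {d D e : ℕ} (hD : J + e ≤ D)
    {I : Finset ℕ} (z : Fin m → ℂ) {A : Finset (ν → ℕ)} (f : {e // e ∈ A} → ℂ)
    (hf : f ∈ (LSA d D β I A).V (fun _ : Unit => Kd.ord e (range J)) fun _ => posz d φ z)
    (a : TI c J) : eval z (Gam φ f a) = 0 := by
  classical
  rw [mem_ord] at hf
  let b : ν → ℕ := fun s => Sum.elim (fun x : Bl c J => if x.2 = a x.1 then 1 else 0)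
    (fun _ => 0) (φ.symm s)
  have hb1 : ∀ x, b (φ (Sum.inl x)) = if x.2 = a x.1 then 1 else 0 := by
    intro x
    simp [b]
  have hb2 : ∀ t, b (φ (Sum.inr t)) = 0 := by
    intro t
    simp [b]
  have hb : ∑ s, b s + e ≤ D := by
    rw [sum_split φ]
    simp only [hb1, hb2, sum_const_zero, add_zero]
    rw [sum_one]
    exact hD
  rw [← hf b hb, eval_Gam]
  refine sum_congr rfl fun e _ => ?_
  have hx : ∀ x, (msk β (range J) fun s => posz d φ z (s, 0)) (φ (Sum.inl x)) = 0 := by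
    intro x
    unfold msk
    rw [if_pos]
    rw [hβ.1 x, mem_range]
    exact x.1.2
  have hz : ∀ t, (msk β (range J) fun s => posz d φ z (s, 0)) (φ (Sum.inr t)) = z t := by
    intro t
    unfold msk
    rw [if_neg]
    · simp [posz]
    · rw [mem_range]
      have := hβ.2 t
      omega
  have h2 : tcr (msk β (range J) fun s => posz d φ z (s, 0)) e.1 b =
      (∏ x, if e.1 (φ (Sum.inl x)) = b (φ (Sum.inl x)) then (1 : ℂ) else 0) *
        ∏ t, z t ^ e.1 (φ (Sum.inr t)) := by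
    unfold tcr
    rw [← φ.prod_comp, Fintype.prod_sum_type]
    congr 1
    · refine prod_congr rfl fun x _ => ?_
      rw [hx]
      split_ifs with h
      · rw [h, Nat.choose_self, Nat.sub_self, pow_zero, Nat.cast_one, mul_one]
      · rcases Nat.lt_or_ge (e.1 (φ (Sum.inl x))) (b (φ (Sum.inl x))) with h3 | h3
        · rw [Nat.choose_eq_zero_of_lt h3, Nat.cast_zero, zero_mul]
        · rw [zero_pow (by omega), mul_zero]
    · refine prod_congr rfl fun t _ => ?_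
      rw [hz, hb2, Nat.choose_zero_right, Nat.cast_one, one_mul, Nat.sub_zero]
  rw [h2]
  by_cases h : HasX φ a e.1
  · have h4 : (∏ x, if e.1 (φ (Sum.inl x)) = b (φ (Sum.inl x)) then (1 : ℂ) else 0) = 1 :=
      prod_eq_one fun x _ => by rw [if_pos]; rw [hb1, h x]
    rw [if_pos h, h4, one_mul]
  · rw [if_neg h]
    have h3 : ∃ x, e.1 (φ (Sum.inl x)) ≠ b (φ (Sum.inl x)) := by
      by_contra hcon
      push Not at hcon
      apply h
      intro x
      rw [hcon x, hb1]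
    obtain ⟨x, hx'⟩ := h3
    rw [prod_eq_zero (mem_univ x) (by rw [if_neg hx']), zero_mul, mul_zero]

/-! ### The standard blocks -/

theorem bidx_eq {c : ℕ → ℕ} (hc : ∀ i, 1 ≤ c i) (i x : ℕ) (hx : x < c i) :
    bidx c (∑ j ∈ range i, c j + x) = i := by
  have hle : ∀ k, k ≤ ∑ j ∈ range k, c j := by
    intro k
    calc k = ∑ _j ∈ range k, 1 := by simp
      _ ≤ _ := sum_le_sum fun j _ => hc j
  have hmono : ∀ a b, a ≤ b → ∑ j ∈ range a, c j ≤ ∑ j ∈ range b, c j := fun a b hab =>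
    sum_le_sum_of_subset (range_mono hab)
  have h1 : (range (∑ j ∈ range i, c j + x + 1)).filter
      (fun k => ∑ j ∈ range (k + 1), c j ≤ ∑ j ∈ range i, c j + x) = range i := by
    ext k
    rw [mem_filter, mem_range, mem_range]
    constructor
    · rintro ⟨-, h⟩
      by_contra hcon
      push Not at hcon
      have h2 := hmono (i + 1) (k + 1) (by omega)
      rw [sum_range_succ] at h2
      omega
    · intro h
      refine ⟨?_, ?_⟩
      · have := hle i
        omega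
      · have := hmono (k + 1) i (by omega)
        omega
  unfold bidx
  rw [h1, card_range]

theorem le_bidx {c : ℕ → ℕ} (hc : ∀ i, 1 ≤ c i) (J s : ℕ) (hs : ∑ j ∈ range J, c j ≤ s) :
    J ≤ bidx c s := by
  have hle : ∀ k, k ≤ ∑ j ∈ range k, c j := by
    intro k
    calc k = ∑ _j ∈ range k, 1 := by simp
      _ ≤ _ := sum_le_sum fun j _ => hc j
  unfold bidx
  rw [← card_range J]
  refine card_le_card fun k hk => ?_
  rw [mem_range] at hk
  rw [mem_filter, mem_range]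
  have h1 : ∑ j ∈ range (k + 1), c j ≤ ∑ j ∈ range J, c j :=
    sum_le_sum_of_subset (range_mono (by omega))
  have h2 := hle J
  exact ⟨by omega, by omega⟩

/-- The numbering of the variables. -/
noncomputable def phn (c : ℕ → ℕ) (J n : ℕ) (h : ∑ i ∈ range J, c i ≤ n) :
    Bl c J ⊕ Fin (n - ∑ i ∈ range J, c i) ≃ Fin n :=
  ((Equiv.sumCongr finSigmaFinEquiv (Equiv.refl _)).trans finSumFinEquiv).trans
    (finCongr (by rw [← Fin.sum_univ_eq_sum_range c J]; rw [← Fin.sum_univ_eq_sum_range c J] at h; omega))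

theorem phn_inl (c : ℕ → ℕ) (J n : ℕ) (h : ∑ i ∈ range J, c i ≤ n) (x : Bl c J) :
    (phn c J n h (Sum.inl x)).1 = ∑ j ∈ range x.1, c j + x.2 := by
  have h1 := finSigmaFinEquiv_apply (n := fun i : Fin J => c i) x
  have h2 : (phn c J n h (Sum.inl x)).1 = (finSigmaFinEquiv x : Fin (∑ i : Fin J, c i)).1 := rfl
  rw [h2, h1]
  congr 1
  rw [← Fin.sum_univ_eq_sum_range c x.1]
  rfl

theorem phn_inr (c : ℕ → ℕ) (J n : ℕ) (h : ∑ i ∈ range J, c i ≤ n)
    (t : Fin (n - ∑ i ∈ range J, c i)) :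
    (phn c J n h (Sum.inr t)).1 = ∑ i ∈ range J, c i + t := by
  have h2 : (phn c J n h (Sum.inr t)).1 = ∑ i : Fin J, c i + t.1 := rfl
  rw [h2, Fin.sum_univ_eq_sum_range c J]

theorem isB_phn (c : ℕ → ℕ) (J n : ℕ) (hc : ∀ i, 1 ≤ c i) (h : ∑ i ∈ range J, c i ≤ n) :
    IsB (phn c J n h) (blk c n) := by
  constructor
  · intro x
    show bidx c (phn c J n h (Sum.inl x)).1 = x.1
    rw [phn_inl]
    exact bidx_eq hc x.1 x.2 x.2.2
  · intro t
    show J ≤ bidx c (phn c J n h (Sum.inr t)).1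
    rw [phn_inr]
    exact le_bidx hc J _ (by omega)

end Pool.Agent.GD.Top
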