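import Pool.Agent.GD.Cls
import Pool.Agent.GD.Top.Rel

/-!
# GD, TOP: the input statements for exactness on the last level `J = d - e`

`P.b n ms` is the virtual dimension in degree `J`: the number of the values of the vector valued form.
All the statements are for configurations of the class of the level `J` without points of the main kind
`(e, range J)`.

* `BETJ`: strictness of the slopes near some position;
* `GAMJ`: a form of `V` with `Gam f = 0` is zero;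
* `CVJ`: the values of `Gam f` lie in a space of dimension `P.b n ms`;
* `POSJ`: the virtual dimension is at least `η * n ^ e`.
-/

set_option autoImplicit false
set_option linter.unusedSectionVars false

namespace Pool.Agent.GD

open Finset MvPolynomial Module Pool.Agent.H51.TB Pool.Agent.V7.ST Topology
open Pool.Agent.GD.Top (Bl TI Gam IsB SF)

variable (P : Par)

/-- The number of the values. -/
noncomputable def Par.b (n : ℕ) (ms : Multiset Kd) : ℤ := vd P.J (range P.J) P.c n ms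

/-- Strictness. -/
def BETJ : Prop := ∃ δ : ℝ, 0 < δ ∧ ∃ n₀ : ℕ, ∀ n, n₀ ≤ n →
  ∀ (m : ℕ) (φ : Bl P.c P.J ⊕ Fin m ≃ Fin n), IsB φ (blk P.c n) →
  ∀ ms, Cls P P.J n ms → ms.count (P.u P.J) = 0 →
  ∀ (κ : Type) [Fintype κ] (rest : κ → Kd), (univ : Finset κ).val.map rest = ms →
    ∃ p₁ : κ → Fin n × Fin (P.d + 1) → ℂ, ∀ᶠ p in 𝓝 p₁, ∀ F : Submodule ℂ (TI P.c P.J → ℂ),
      F ≠ ⊥ → (finrank ℂ F : ℤ) < P.b n ms →
        (finrank ℂ (SF φ ((LS P.d P.d (blk P.c n) (range P.J)).V rest p) F) : ℝ) * P.b n ms ≤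
          (1 - δ) * finrank ℂ F * P.v P.J n ms

/-- A form with the vector valued form `0` is zero. -/
def GAMJ : Prop := ∃ n₀ : ℕ, ∀ n, n₀ ≤ n →
  ∀ (m : ℕ) (φ : Bl P.c P.J ⊕ Fin m ≃ Fin n), IsB φ (blk P.c n) →
  ∀ ms, Cls P P.J n ms → ms.count (P.u P.J) = 0 →
  ∀ (κ : Type) [Fintype κ] (rest : κ → Kd), (univ : Finset κ).val.map rest = ms →
    Gn κ (Fin n × Fin (P.d + 1)) fun p =>
      ∀ f ∈ (LS P.d P.d (blk P.c n) (range P.J)).V rest p, Gam φ f = 0 → f = 0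

/-- The values of the vector valued forms. -/
def CVJ : Prop := ∃ n₀ : ℕ, ∀ n, n₀ ≤ n →
  ∀ (m : ℕ) (φ : Bl P.c P.J ⊕ Fin m ≃ Fin n), IsB φ (blk P.c n) →
  ∀ ms, Cls P P.J n ms → ms.count (P.u P.J) = 0 →
  ∀ (κ : Type) [Fintype κ] (rest : κ → Kd), (univ : Finset κ).val.map rest = ms →
    Gn κ (Fin n × Fin (P.d + 1)) fun p => ∃ B : Submodule ℂ (TI P.c P.J → ℂ),
      (finrank ℂ B : ℤ) = P.b n ms ∧
        ∀ f ∈ (LS P.d P.d (blk P.c n) (range P.J)).V rest p, ∀ α,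
          (fun a => coeff α (Gam φ f a)) ∈ B

/-- The virtual dimension without the points of the main kind. -/
def POSJ : Prop := ∃ η : ℝ, 0 < η ∧ ∃ n₀ : ℕ, ∀ n, n₀ ≤ n → ∀ ms, Cls P P.J n ms →
  ms.count (P.u P.J) = 0 → η * (n : ℝ) ^ P.e ≤ P.v P.J n ms ∧ 1 ≤ P.b n ms

/-- A statement about the parameters with the quantifiers of the target of TOP. -/
def TargetT (S : Par → Prop) : Prop := ∀ (d e : ℕ) (kap : ℕ → ℝ), Crit d e kap →
  ∃ Cs E : ℝ, 1 ≤ Cs ∧ 0 < E ∧ ∀ P : Par, P.d = d → P.e = e → P.kap = kap → P.Ok Cs E →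
    ∃ (N : ℕ) (F : (ℕ → ℕ) → ℕ), 0 < N ∧ ∀ c, Hier N F P.J c → S (P.wc c)

end Pool.Agent.GD
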