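import Pool.Agent.GD.Top.Vd

/-!
# GD, TOP: the leading terms for the classes
-/

set_option autoImplicit false

namespace Pool.Agent.GD

open Finset

theorem mem_inter_iff {As : List (Finset ℕ)} (h : As ≠ []) (x : ℕ) : x ∈ inter As ↔ ∀ A ∈ As, x ∈ A := by
  unfold inter
  rw [mem_filter]
  constructor
  · exact fun h => h.2
  · intro h'
    refine ⟨?_, h'⟩
    obtain ⟨A, As', rfl⟩ := List.exists_cons_of_ne_nil h
    exact h' A List.mem_cons_self

/-- The conditions on the clusters of the classes. -/
theorem CT.good {d e i j : ℕ} (he : 2 ≤ e) (hj : j ≤ d - e) (hi : i < j) {τ : CT} (hτ : τ.Ok d e i j) :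
    ∃ (dl : ℕ) (As : List (Finset ℕ)), τ.kd d e i j = Kd.cl e dl i As ∧ As ≠ [] ∧
      (∀ A ∈ As, A ⊆ (range j).erase i ∧ (range j \ A).card ≤ e) ∧
      ((range j).erase i \ inter As).card + 2 ≤ trx e dl As.length := by
  classical
  have hiJ : i ∈ range j := mem_range.2 hi
  have hE : ∀ S : Finset ℕ, (range j \ ((range j).erase i \ S)).card ≤ S.card + 1 := by
    intro S
    refine (card_le_card ?_).trans (card_insert_le i S)
    intro x hx
    rw [mem_sdiff, mem_sdiff, mem_erase, not_and_not_right] at hx
    rw [mem_insert]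
    by_cases hxi : x = i
    · exact Or.inl hxi
    · exact Or.inr (hx.2 ⟨hxi, hx.1⟩)
  have hmb : ∀ (k : ℕ) (S : Finset ℕ), 1 ≤ k → S.card + 1 ≤ e → mbs i j k S ≠ [] ∧
      (∀ A ∈ mbs i j k S, A ⊆ (range j).erase i ∧ (range j \ A).card ≤ e) ∧
      ((range j).erase i \ inter (mbs i j k S)).card ≤ S.card ∧ (mbs i j k S).length = k := by
    intro k S hk hS
    have hne : mbs i j k S ≠ [] := by
      unfold mbs
      split_ifs
      · exact List.cons_ne_nil _ _
      · exact List.cons_ne_nil _ _
    have hmem : ∀ A ∈ mbs i j k S, A = (range j).erase i ∨ A = (range j).erase i \ S := by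
      intro A hA
      unfold mbs at hA
      split_ifs at hA
      · exact Or.inr (List.mem_singleton.1 hA)
      · rcases List.mem_cons.1 hA with hA | hA
        · exact Or.inl hA
        · exact Or.inr (List.eq_of_mem_replicate hA)
    refine ⟨hne, fun A hA => ?_, ?_, ?_⟩
    · rcases hmem A hA with rfl | rfl
      · refine ⟨le_rfl, ?_⟩
        have := hE ∅
        rw [sdiff_empty, card_empty] at this
        omega
      · refine ⟨sdiff_subset, ?_⟩
        have := hE S
        omega
    · refine card_le_card fun x hx => ?_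
      rw [mem_sdiff, mem_inter_iff hne] at hx
      by_contra hxS
      refine hx.2 fun A hA => ?_
      rcases hmem A hA with rfl | rfl
      · exact hx.1
      · exact mem_sdiff.2 ⟨hx.1, hxS⟩
    · unfold mbs
      split_ifs with h
      · rw [List.length_singleton, h]
      · rw [List.length_cons, List.length_replicate]
        omega
  rcases τ with ⟨k, S⟩ | S | r
  · obtain ⟨h1, h2, h3, h4⟩ := hτ
    obtain ⟨a1, a2, a3, a4⟩ := hmb k S (by omega) (by omega)
    refine ⟨0, mbs i j k S, rfl, a1, a2, ?_⟩
    rw [a4]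
    unfold trx
    have h5 : 2 * (e - 1) ≤ k * (e - 1) := Nat.mul_le_mul_right _ h1
    omega
  · obtain ⟨h1, h2, h3⟩ := hτ
    have hk : 1 ≤ (d - i - 1) / (e - 1) := (Nat.one_le_div_iff (by omega)).2 (by omega)
    obtain ⟨a1, a2, a3, a4⟩ := hmb ((d - i - 1) / (e - 1)) S hk (by omega)
    refine ⟨(d - i - 1) % (e - 1), mbs i j ((d - i - 1) / (e - 1)) S, rfl, a1, a2, ?_⟩
    rw [a4]
    unfold trx
    have h5 := Nat.div_add_mod' (d - i - 1) (e - 1)
    omega
  · obtain ⟨h1, h2⟩ := hτ
    have hk : 1 ≤ (d - i + r - 1) / (e - 1) := (Nat.one_le_div_iff (by omega)).2 (by omega)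
    have hlen : (mbr i j ((d - i + r - 1) / (e - 1)) e r).length = (d - i + r - 1) / (e - 1) := by
      unfold mbr
      rw [List.length_map, List.length_range]
    have hne : mbr i j ((d - i + r - 1) / (e - 1)) e r ≠ [] := by
      intro h
      rw [h, List.length_nil] at hlen
      omega
    have hmem : ∀ A ∈ mbr i j ((d - i + r - 1) / (e - 1)) e r, ∃ s : ℕ, A = (range j).erase i \
        (Ico (s * (e - 1)) ((s + 1) * (e - 1)) ∩ range r) := by
      intro A hA
      unfold mbr at hA
      obtain ⟨s, _, rfl⟩ := List.mem_map.1 hA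
      exact ⟨s, rfl⟩
    refine ⟨(d - i + r - 1) % (e - 1), mbr i j ((d - i + r - 1) / (e - 1)) e r, rfl, hne,
      fun A hA => ?_, ?_⟩
    · obtain ⟨s, rfl⟩ := hmem A hA
      refine ⟨sdiff_subset, (hE _).trans ?_⟩
      have h3 : (Ico (s * (e - 1)) ((s + 1) * (e - 1)) ∩ range r).card ≤ e - 1 := by
        refine (card_le_card inter_subset_left).trans ?_
        rw [Nat.card_Ico]
        have : (s + 1) * (e - 1) = s * (e - 1) + (e - 1) := by ring
        omega
      omega
    · rw [hlen]
      have h3 : ((range j).erase i \ inter (mbr i j ((d - i + r - 1) / (e - 1)) e r)).card ≤ r := by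
        refine (card_le_card (t := range r) fun x hx => ?_).trans_eq (card_range r)
        rw [mem_sdiff, mem_inter_iff hne] at hx
        by_contra hxr
        refine hx.2 fun A hA => ?_
        obtain ⟨s, rfl⟩ := hmem A hA
        exact mem_sdiff.2 ⟨hx.1, fun h => hxr (mem_inter.1 h).2⟩
      unfold trx
      have h5 := Nat.div_add_mod' (d - i + r - 1) (e - 1)
      omega

theorem Cls.lead {P : Par} (he : 2 ≤ P.e) {j n : ℕ} (hj : j ≤ P.J) (hc : ∀ i < j, 1 ≤ P.c i)
    (hn : ∑ i ∈ range j, P.c i ≤ n) {ms : Multiset Kd} (h : Cls P j n ms) : Lead P.c j n ms := by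
  have h1 := h.mem
  clear h
  induction ms using Multiset.induction_on with
  | empty => exact lead_zero hn
  | cons k ms ih =>
    have h2 := ih fun k' hk' => h1 k' (Multiset.mem_cons_of_mem hk')
    rcases h1 k (Multiset.mem_cons_self k ms) with ⟨x, A, rfl, h3, _, h4, h5⟩ | ⟨i, hi, τ, hτ, rfl⟩
    · exact lead_ord hc (by omega) h4 h5 h2
    · obtain ⟨dl, As, h6, _, h7, h8⟩ := CT.good he hj hi hτ
      rw [h6]
      exact lead_cl hc (by omega) h7 h8 h2

theorem lead_replicate {c : ℕ → ℕ} {J n e : ℕ} (hc : ∀ i < J, 1 ≤ c i) (he : 1 ≤ e) {ms : Multiset Kd}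
    (h : Lead c J n ms) (N : ℕ) : Lead c J n (ms + Multiset.replicate N (Kd.ord e (range J))) := by
  induction N with
  | zero => rwa [Multiset.replicate_zero, add_zero]
  | succ N ih =>
    rw [Multiset.replicate_succ, Multiset.add_cons]
    exact lead_ord hc he le_rfl (by simp) ih

/-- The effect of the points of the main kind. -/
theorem vd_replicate {c : ℕ → ℕ} {J n e d : ℕ} (hc : ∀ i < J, 1 ≤ c i) (he : 1 ≤ e) (hd : d = e + J)
    {ms : Multiset Kd} (h : Lead c J n ms) (N : ℕ) :
    vd d (range J) c n (ms + Multiset.replicate N (Kd.ord e (range J))) =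
      vd d (range J) c n ms - N * vd J (range J) c n ms := by
  have h1 : ∀ N, vd J (range J) c n (ms + Multiset.replicate N (Kd.ord e (range J))) =
      vd J (range J) c n ms := by
    intro N
    induction N with
    | zero => rw [Multiset.replicate_zero, add_zero]
    | succ N ih =>
      rw [Multiset.replicate_succ, Multiset.add_cons, vd_ord, ih, inter_self]
      split_ifs with h2
      · rw [(lead_replicate hc he h N (range J) le_rfl).1 _ (by rw [card_range]; omega), sub_zero]
      · rw [sub_zero]
  induction N with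
  | zero =>
    rw [Multiset.replicate_zero, add_zero]
    push_cast
    ring
  | succ N ih =>
    rw [Multiset.replicate_succ, Multiset.add_cons, vd_ord, inter_self, if_pos (by omega), ih]
    have h2 : d - e = J := by omega
    rw [h2, h1]
    push_cast
    ring

end Pool.Agent.GD
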