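import Pool.Agent.GD.Top.CV
import Pool.Agent.GD.Top.Lead
import Pool.Agent.GD.BE.Exd

/-!
# GD, TOP: CVJ from the exactness of the base tensor systems
-/

set_option autoImplicit false
set_option linter.unusedSectionVars false

namespace Pool.Agent.GD

open Finset Module MvPolynomial Pool.Agent.H51.TB Pool.Agent.V7.ST
open Pool.Agent.GD.Top (Bl TI Gam IsB)
open Pool.Agent.GD.BE (pc dn Exac)

theorem FF_map {ι ι' : Type} [DecidableEq ι] [DecidableEq ι'] (f : ι ↪ ι') (κ : Finset ι' → ℚ)
    (I : Finset ι) : FF κ (I.map f) = FF (fun S => κ (S.map f)) I := by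
  have h : IsF (fun S => κ (S.map f)) (fun I => FF κ (I.map f)) := by
    constructor
    · show FF κ ((∅ : Finset ι).map f) = 1
      rw [map_empty]
      exact (isF_FF κ).empty
    · intro I i hi
      show FF κ ((insert i I).map f) = FF κ (I.map f) -
        ∑ B ∈ I.powerset, κ ((insert i B).map f) * FF κ ((I \ B).map f)
      rw [map_insert, (isF_FF κ).step (I.map f) (f i) (by rwa [mem_map'])]
      congr 1
      symm
      refine sum_bij (fun B _ => B.map f) ?_ ?_ ?_ ?_
      · intro B hB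
        rw [mem_powerset] at hB ⊢
        exact map_subset_map.2 hB
      · intro B _ B' _ hBB
        exact map_injective f hBB
      · intro B hB
        rw [mem_powerset] at hB
        obtain ⟨u, hu, rfl⟩ := subset_map_iff.1 hB
        exact ⟨u, mem_powerset.2 hu, rfl⟩
      · intro B _
        rw [map_insert, Finset.map_sdiff]
  have h1 := (isF_FF _).unique h
  rw [h1]

/-! ### The numbers of the members -/

theorem pts_eq (k : Kd) : k.pts = (univ : Finset (Fin k.nm)).val.map fun y => (k.ex, k.mA y.1) := by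
  rcases k with ⟨e, A⟩ | ⟨e, dl, i, As⟩
  · rfl
  · rw [Fin.univ_val_map]
    show ((As.map fun A => (e, A) : List (ℕ × Finset ℕ)) : Multiset (ℕ × Finset ℕ)) = _
    congr 1
    apply List.ext_getElem
    · rw [List.length_map, List.length_ofFn]
      rfl
    · intro y h1 h2
      rw [List.getElem_map, List.getElem_ofFn]
      rw [List.length_map] at h1
      show (e, As[y]) = (e, As.getD y ∅)
      rw [List.getD_eq_getElem _ _ h1]

theorem npt_sum {κ : Type} [Fintype κ] (rest : κ → Kd) (y : ℕ) (B : Finset ℕ) :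
    npt ((univ : Finset κ).val.map rest) y B = ∑ i, (rest i).pts.count (y, B) := by
  unfold npt
  rw [Multiset.count_bind, Multiset.map_map]
  rfl

/-- The members are as expected. -/
def Kd.Gm (d J : ℕ) (k : Kd) : Prop := k.nm ≤ d + 1 ∧ ∀ y < k.nm, k.mA y ⊆ range J

theorem sp_map {J : ℕ} (k : Kd) (y : ℕ) : (k.sp J y).map Fin.valEmbedding = range J \ k.mA y := by
  ext x
  rw [mem_map, mem_sdiff, mem_range]
  unfold Kd.sp
  constructor
  · rintro ⟨i, hi, rfl⟩
    exact ⟨i.2, (mem_filter.1 hi).2⟩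
  · rintro ⟨h1, h2⟩
    exact ⟨⟨x, h1⟩, mem_filter.2 ⟨mem_univ _, h2⟩, rfl⟩

theorem map_sub {J : ℕ} (S : Finset (Fin J)) : S.map Fin.valEmbedding ⊆ range J := by
  intro x hx
  obtain ⟨i, _, rfl⟩ := mem_map.1 hx
  exact mem_range.2 i.2

theorem card_mem {d J : ℕ} {k : Kd} (hk : k.Gm d J) (S : Finset (Fin J)) :
    Nat.card {y : Fin (d + 1) // k.isz J y.1 ∧ k.sp J y.1 = S} =
      k.pts.count (S.card, range J \ S.map Fin.valEmbedding) := by
  classical
  have h1 : ∀ y < k.nm, ((S.card, range J \ S.map Fin.valEmbedding) = (k.ex, k.mA y) ↔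
      k.isz J y ∧ k.sp J y = S) := by
    intro y hy
    have h2 : k.sp J y = S ↔ range J \ S.map Fin.valEmbedding = k.mA y := by
      rw [← (map_injective (Fin.valEmbedding : Fin J ↪ ℕ)).eq_iff, sp_map]
      constructor
      · intro h
        rw [← h, Finset.sdiff_sdiff_eq_self (hk.2 y hy)]
      · intro h
        rw [← h, Finset.sdiff_sdiff_eq_self (map_sub S)]
    rw [Prod.mk.injEq]
    unfold Kd.isz
    constructor
    · rintro ⟨h3, h4⟩
      have h5 := h2.2 h4
      exact ⟨⟨hy, by rw [h5, h3]⟩, h5⟩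
    · rintro ⟨⟨_, h3⟩, h4⟩
      exact ⟨by rw [← h3, h4], h2.1 h4⟩
  rw [pts_eq, Multiset.count_map, ← Finset.filter_val, Finset.card_val, ← Fintype.card_subtype,
    ← Nat.card_eq_fintype_card]
  refine Nat.card_congr ⟨fun y => ⟨⟨y.1.1, y.2.1.1⟩, (h1 _ y.2.1.1).2 y.2⟩,
    fun y => ⟨⟨y.1.1, by have := y.1.2; have := hk.1; omega⟩, (h1 _ y.1.2).1 y.2⟩, ?_, ?_⟩
  · rintro ⟨y, hy⟩
    rfl
  · rintro ⟨y, hy⟩
    rfl

theorem card_mz {d J : ℕ} {κ : Type} [Fintype κ] {rest : κ → Kd} (hk : ∀ i, (rest i).Gm d J)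
    (S : Finset (Fin J)) : Nat.card {x : Mz J d rest // mz J d rest x = S} =
      npt ((univ : Finset κ).val.map rest) S.card (range J \ S.map Fin.valEmbedding) := by
  classical
  rw [npt_sum, ← sum_congr rfl fun i _ => card_mem (hk i) S, ← Nat.card_sigma]
  refine Nat.card_congr ⟨fun x => ⟨x.1.1.1, ⟨x.1.1.2, x.1.2, x.2⟩⟩,
    fun x => ⟨⟨(x.1, x.2.1), x.2.2.1⟩, x.2.2.2⟩, ?_, ?_⟩
  · rintro ⟨⟨⟨i, y⟩, h⟩, h'⟩
    rfl
  · rintro ⟨i, ⟨y, h⟩⟩
    rfl

/-! ### The kinds of the classes -/

theorem sp_card {J : ℕ} (k : Kd) (y : ℕ) : (k.sp J y).card = (range J \ k.mA y).card := by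
  rw [← sp_map, card_map]

theorem sp_card_le {J i : ℕ} {k : Kd} {y : ℕ} (X : Finset ℕ) (h : k.mA y = (range J).erase i \ X) :
    (k.sp J y).card ≤ X.card + 1 := by
  classical
  rw [sp_card, h]
  refine (card_le_card ?_).trans (card_insert_le i X)
  intro x hx
  rw [mem_sdiff, mem_sdiff, mem_erase, not_and_not_right] at hx
  rw [mem_insert]
  by_cases hxi : x = i
  · exact Or.inl hxi
  · exact Or.inr (hx.2 ⟨hxi, hx.1⟩)

theorem CT.gd {d e i J : ℕ} (he : 2 ≤ e) (hJ : J ≤ d - e) (hi : i < J) {τ : CT}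
    (hτ : τ.Ok d e i J) : (τ.kd d e i J).Gd d J ∧ (τ.kd d e i J).Gm d J := by
  classical
  have hmbs : ∀ (k dl : ℕ) (S : Finset ℕ), 1 ≤ k → k ≤ d → (k = 1 → S.card + 2 ≤ e) →
      (Kd.cl e dl i (mbs i J k S)).Gd d J ∧ (Kd.cl e dl i (mbs i J k S)).Gm d J := by
    intro k dl S hk hkd hk1
    have hlen : (mbs i J k S).length = k := by
      unfold mbs
      split_ifs with h
      · rw [List.length_singleton, h]
      · rw [List.length_cons, List.length_replicate]
        omega
    refine ⟨⟨by omega, 0, by omega, fun h => ?_⟩, ?_, ?_⟩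
    · have h1 : ((Kd.cl e dl i (mbs i J k S)).sp J 0).card < e := by
        by_cases h2 : k = 1
        · have h3 : (Kd.cl e dl i (mbs i J k S)).mA 0 = (range J).erase i \ S := by
            show (mbs i J k S).getD 0 ∅ = _
            unfold mbs
            rw [if_pos h2]
            rfl
          have h4 := sp_card_le S h3
          have h5 := hk1 h2
          omega
        · have h3 : (Kd.cl e dl i (mbs i J k S)).mA 0 = (range J).erase i \ ∅ := by
            rw [sdiff_empty]
            show (mbs i J k S).getD 0 ∅ = _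
            unfold mbs
            rw [if_neg h2]
            rfl
          have h4 := sp_card_le ∅ h3
          rw [card_empty] at h4
          omega
      have h2 : ((Kd.cl e dl i (mbs i J k S)).sp J 0).card = e := h.2
      omega
    · show (mbs i J k S).length ≤ d + 1
      omega
    · intro y hy
      have hy' : y < (mbs i J k S).length := hy
      show (mbs i J k S).getD y ∅ ⊆ range J
      rw [List.getD_eq_getElem _ _ hy']
      have h1 : ∀ A ∈ mbs i J k S, A ⊆ range J := by
        intro A hA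
        unfold mbs at hA
        split_ifs at hA
        · rw [List.mem_singleton.1 hA]
          exact sdiff_subset.trans (erase_subset _ _)
        · rcases List.mem_cons.1 hA with hA | hA
          · rw [hA]
            exact erase_subset _ _
          · rw [List.eq_of_mem_replicate hA]
            exact sdiff_subset.trans (erase_subset _ _)
      exact h1 _ (List.getElem_mem _)
  rcases τ with ⟨k, S⟩ | S | r
  · obtain ⟨h1, h2, h3, h4⟩ := hτ
    have h5 : k ≤ d := by
      have := h2.trans (Nat.div_le_self _ _)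
      omega
    exact hmbs k 0 S (by omega) h5 fun h => by omega
  · obtain ⟨h1, h2, h3⟩ := hτ
    have hk : 1 ≤ (d - i - 1) / (e - 1) := (Nat.one_le_div_iff (by omega)).2 (by omega)
    have h5 : (d - i - 1) / (e - 1) ≤ d := by
      have := Nat.div_le_self (d - i - 1) (e - 1)
      omega
    refine hmbs _ _ S hk h5 fun h => ?_
    have h6 := Nat.div_add_mod' (d - i - 1) (e - 1)
    omega
  · obtain ⟨h1, h2⟩ := hτ
    obtain ⟨k, hk⟩ : ∃ k, k = (d - i + r - 1) / (e - 1) := ⟨_, rfl⟩
    have hk1 : 1 ≤ k := by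
      rw [hk]
      exact (Nat.one_le_div_iff (by omega)).2 (by omega)
    have hkd : k ≤ d := by
      have := Nat.div_le_self (d - i + r - 1) (e - 1)
      omega
    have hkr : r + 2 ≤ k * (e - 1) := by
      have h5 := Nat.div_add_mod' (d - i + r - 1) (e - 1)
      have h6 := Nat.mod_lt (d - i + r - 1) (by omega : e - 1 > 0)
      rw [← hk] at h5
      omega
    have hlen : (mbr i J k e r).length = k := by
      unfold mbr
      rw [List.length_map, List.length_range]
    have hgetD : ∀ y < k, (mbr i J k e r).getD y ∅ =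
        (range J).erase i \ (Ico (y * (e - 1)) ((y + 1) * (e - 1)) ∩ range r) := by
      intro y hy
      rw [List.getD_eq_getElem _ _ (by rw [hlen]; exact hy)]
      unfold mbr
      rw [List.getElem_map, List.getElem_range]
    have hkd' : (CT.br r).kd d e i J = Kd.cl e ((d - i + r - 1) % (e - 1)) i (mbr i J k e r) := by
      rw [hk]
      rfl
    rw [hkd']
    refine ⟨⟨by omega, k - 1, by omega, fun h => ?_⟩, ?_, ?_⟩
    · have h3 := sp_card_le (J := J) (i := i)
        (k := Kd.cl e ((d - i + r - 1) % (e - 1)) i (mbr i J k e r)) (y := k - 1) _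
        (hgetD (k - 1) (by omega))
      have h4 : (Ico ((k - 1) * (e - 1)) ((k - 1 + 1) * (e - 1)) ∩ range r).card ≤
          r - (k - 1) * (e - 1) := by
        refine (card_le_card (t := Ico ((k - 1) * (e - 1)) r) fun x hx => ?_).trans_eq
          (Nat.card_Ico _ _)
        rw [mem_inter, mem_Ico, mem_range] at hx
        rw [mem_Ico]
        omega
      have h5 : (k - 1) * (e - 1) + (e - 1) = k * (e - 1) := by
        obtain ⟨k', rfl⟩ : ∃ k', k = k' + 1 := ⟨k - 1, by omega⟩
        rw [Nat.add_sub_cancel]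
        ring
      have h6 : ((Kd.cl e ((d - i + r - 1) % (e - 1)) i (mbr i J k e r)).sp J (k - 1)).card = e :=
        h.2
      omega
    · show (mbr i J k e r).length ≤ d + 1
      omega
    · intro y hy
      have hy' : y < (mbr i J k e r).length := hy
      show (mbr i J k e r).getD y ∅ ⊆ range J
      rw [hgetD y (by omega)]
      exact sdiff_subset.trans (erase_subset _ _)

theorem Cls.gd {P : Par} (he : 2 ≤ P.e) {n : ℕ} {ms : Multiset Kd} (h : Cls P P.J n ms) (k : Kd)
    (hk : k ∈ ms) : k.Gd P.d P.J ∧ k.Gm P.d P.J := by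
  rcases h.mem k hk with ⟨x, A, rfl, h3, _, h4, h5⟩ | ⟨i, hi, τ, hτ, rfl⟩
  · refine ⟨trivial, ?_, fun y _ => h4⟩
    show 1 ≤ P.d + 1
    omega
  · exact CT.gd he le_rfl hi hτ

theorem Cls.ex_ge {P : Par} (he : 2 ≤ P.e) {n : ℕ} {ms : Multiset Kd} (h : Cls P P.J n ms) (k : Kd)
    (hk : k ∈ ms) : 2 ≤ k.ex := by
  rcases h.mem k hk with ⟨x, A, rfl, h3, _, h4, h5⟩ | ⟨i, hi, τ, hτ, rfl⟩
  · exact h3
  · rcases τ with ⟨k, S⟩ | S | r
    · exact he
    · exact he
    · exact he

theorem cvJ_of (P : Par) (he : 2 ≤ P.e) (hlt : P.e < P.d) (hc : ∀ i < P.J, 1 ≤ P.c i)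
    (κ : Finset (Fin P.J) → ℚ) (hκ0 : ∀ S, 0 ≤ κ S)
    (hκ : ∀ S, 2 ≤ S.card → P.xp S.card (S.map Fin.valEmbedding) ≤ κ S ∧
      P.xm S.card (S.map Fin.valEmbedding) ≤ κ S)
    (hE : Exac (fun i : Fin P.J => P.c i) κ univ) : CVJ P := by
  classical
  refine ⟨∑ i ∈ range P.J, P.c i, fun n hn m φ hφ ms hms _ κ' _ rest hrest => ?_⟩
  have hmem : ∀ i, rest i ∈ ms := by
    intro i
    rw [← hrest]
    exact Multiset.mem_map_of_mem rest (mem_univ_val i)
  have hGd : ∀ i, (rest i).Gd P.d P.J := fun i => (hms.gd he (rest i) (hmem i)).1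
  have hGm : ∀ i, (rest i).Gm P.d P.J := fun i => (hms.gd he (rest i) (hmem i)).2
  refine (gn_cvS (d := P.d) hφ rest hGd).mono fun p hp => ⟨(cvS P.d φ (blk P.c n)).V rest p, ?_,
    fun f hf α => mem_B hφ rest p f hf α⟩
  have hcp : ∀ S : Finset (Fin P.J), pc (fun i : Fin P.J => P.c i) S =
      ∏ i ∈ S.map Fin.valEmbedding, (P.c i : ℚ) := by
    intro S
    rw [prod_map]
    rfl
  have hJd : P.J < P.d := by
    unfold Par.J
    omega
  have hcard := card_mz (d := P.d) hGm
  rw [hrest] at hcard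
  have hnpt1 : ∀ y A, y < 2 → npt ms y A = 0 := by
    intro y A hy
    unfold npt
    rw [Multiset.count_eq_zero]
    intro h1
    obtain ⟨k, hk, hk'⟩ := Multiset.mem_bind.1 h1
    have h2 := hms.ex_ge he k hk
    rw [pts_eq] at hk'
    obtain ⟨z, _, hz⟩ := Multiset.mem_map.1 hk'
    have h3 := congrArg Prod.fst hz
    have h4 : k.ex = y := h3
    omega
  -- the dimension of the tensor system
  have h1 := hE (Mz P.J P.d rest) (mz P.J P.d rest) (fun x => ⟨subset_univ _, fun h0 => by
    have h2 : (mz P.J P.d rest x).card = (rest x.1.1).ex := x.2.2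
    rw [h0, card_empty] at h2
    have h3 := hms.ex_ge he _ (hmem x.1.1)
    omega⟩) (fun S _ hS0 => by
    rw [hcard]
    have hS1 : 1 ≤ S.card := card_pos.2 (nonempty_iff_ne_empty.2 hS0)
    by_cases hS2 : S.card < 2
    · rw [hnpt1 _ _ hS2]
      push_cast
      refine mul_nonneg (hκ0 S) ?_
      unfold pc
      exact prod_nonneg fun i _ => Nat.cast_nonneg _
    · push Not at hS2
      have hSJ : S.card ≤ P.J := by
        have := card_le_univ S
        rwa [Fintype.card_fin] at this
      have h5 : range P.J \ (range P.J \ S.map Fin.valEmbedding) = S.map Fin.valEmbedding :=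
        Finset.sdiff_sdiff_eq_self (map_sub S)
      have h6 := hms.zero S.card (range P.J \ S.map Fin.valEmbedding) hS2 (by
        omega) sdiff_subset (by rw [h5, card_map])
      rw [h5] at h6
      have h7 : (P.cc (S.map Fin.valEmbedding) : ℚ) = pc (fun i : Fin P.J => P.c i) S := by
        rw [hcp]
        unfold Par.cc
        push_cast
        rfl
      have h8 : 0 ≤ pc (fun i : Fin P.J => P.c i) S := by
        unfold pc
        exact prod_nonneg fun i _ => Nat.cast_nonneg _
      obtain ⟨h9, h10⟩ := hκ S hS2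
      rcases h6 with h6 | h6
      · rw [h6, h7]
        exact mul_le_mul_of_nonneg_right h9 h8
      · rw [h6, h7]
        exact mul_le_mul_of_nonneg_right h10 h8)
  -- the virtual dimension
  have h2 := (hms.lead he le_rfl hc hn (range P.J) le_rfl).2
  rw [card_range] at h2
  have h3 : (range P.J) = (univ : Finset (Fin P.J)).map Fin.valEmbedding := by
    ext x
    rw [mem_range, mem_map]
    constructor
    · intro h
      exact ⟨⟨x, h⟩, mem_univ _, rfl⟩
    · rintro ⟨i, _, rfl⟩
      exact i.2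
  have h4 : FF (dnS P.c P.J ms) (range P.J) =
      FF (dn (fun i : Fin P.J => P.c i) (mz P.J P.d rest)) univ := by
    rw [h3, FF_map]
    refine FF_congr' fun S _ _ => ?_
    unfold dnS dn
    rw [card_map, hcard, hcp]
  have h5 : (∏ i ∈ range P.J, (P.c i : ℚ)) = pc (fun i : Fin P.J => P.c i) univ := by
    rw [hcp, ← h3]
  rw [h4, h5, ← h1] at h2
  have h6 : ((finrank ℂ ((cvS P.d φ (blk P.c n)).V rest p) : ℤ) : ℚ) = (P.b n ms : ℚ) := by
    rw [hp]
    unfold Par.b
    rw [h2]
    push_cast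
    rfl
  exact_mod_cast h6

end Pool.Agent.GD
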