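import Pool.Agent.GD.Top.Prop
import Pool.Agent.GD.Top.CvN

/-!
# GD, TOP: `TargetTop` from the inputs
-/

set_option autoImplicit false

namespace Pool.Agent.GD

open Finset

/-- Positivity of the virtual dimension on the last level. -/
def TargetPos : Prop := ∀ (d e : ℕ) (kap : ℕ → ℝ), Crit d e kap → ∃ η E : ℝ, 0 < η ∧ 0 < E ∧
  ∀ P : Par, P.d = d → P.e = e → P.kap = kap → P.Ok 1 E → (∀ i < P.J, 1 ≤ P.c i) → POSE P η

theorem Par.Ok.epos {P : Par} {Cs E : ℝ} (h : P.Ok Cs E) (hC : 1 ≤ Cs) :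
    ∀ j ≤ P.J, 0 < P.eps j ∧ (j < P.J → 0 < P.bet (j + 1)) := by
  intro j
  induction j with
  | zero =>
    intro _
    refine ⟨h.eps0, fun h0 => ?_⟩
    have h1 := h.eb 0 h0
    have h2 := h.eps0
    nlinarith
  | succ j ih =>
    intro hj
    obtain ⟨h1, h2⟩ := ih (by omega)
    have h3 := h2 (by omega)
    have h4 := h.be j (by omega)
    have h5 : 0 < P.eps (j + 1) := by nlinarith
    refine ⟨h5, fun h0 => ?_⟩
    have h6 := h.eb (j + 1) h0
    nlinarith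

theorem Par.Ok.mono' {P : Par} {Cs E Cs' E' : ℝ} (h : P.Ok Cs E) (h1 : 1 ≤ Cs') (h2 : Cs' ≤ Cs)
    (h3 : E ≤ E') : P.Ok Cs' E' := by
  have hp := h.epos (h1.trans h2)
  refine ⟨h.toCrit, h.eps0, fun j hj => ?_, fun j hj => ?_, h.epsJ.trans h3, h.xp, h.xm, h.xm0⟩
  · have h4 := h.eb j hj
    have h5 := (hp j hj.le).1
    nlinarith
  · have h4 := h.be j hj
    have h5 := (hp j hj.le).2 hj
    nlinarith

theorem Par.Ok.wc' {P : Par} {Cs E : ℝ} (h : P.Ok Cs E) (c : ℕ → ℕ) : (P.wc c).Ok Cs E :=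
  ⟨h.toCrit, h.eps0, h.eb, h.be, h.epsJ, h.xp, h.xm, h.xm0⟩

theorem Hier.mono' {N N' : ℕ} {F F' : (ℕ → ℕ) → ℕ} {J : ℕ} {c : ℕ → ℕ} (h : Hier N F J c)
    (hN : N' ∣ N) (hF : ∀ x, F' x ≤ F x) : Hier N' F' J c := fun i hi =>
  ⟨hN.trans (h i hi).1, (h i hi).2.1, (hF _).trans (h i hi).2.2⟩

theorem targetTop_of (hB : TargetT BETJ) (hG : TargetT GAMJ) (hC : TargetT CVJ) (hV : TargetPos) :
    TargetTop := by
  intro d e kap hk
  obtain ⟨C₁, E₁, hC₁, hE₁, h₁⟩ := hB d e kap hk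
  obtain ⟨C₂, E₂, hC₂, hE₂, h₂⟩ := hG d e kap hk
  obtain ⟨C₃, E₃, hC₃, hE₃, h₃⟩ := hC d e kap hk
  obtain ⟨η, E₄, hη, hE₄, h₄⟩ := hV d e kap hk
  refine ⟨max C₁ (max C₂ C₃), min E₁ (min E₂ (min E₃ E₄)), η, le_max_of_le_left hC₁,
    lt_min hE₁ (lt_min hE₂ (lt_min hE₃ hE₄)), hη, fun P hPd hPe hPk hOk => ?_⟩
  have q1 : min E₁ (min E₂ (min E₃ E₄)) ≤ E₁ := min_le_left _ _
  have q2 : min E₁ (min E₂ (min E₃ E₄)) ≤ E₂ := (min_le_right _ _).trans (min_le_left _ _)
  have q3 : min E₁ (min E₂ (min E₃ E₄)) ≤ E₃ :=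
    (min_le_right _ _).trans ((min_le_right _ _).trans (min_le_left _ _))
  have q4 : min E₁ (min E₂ (min E₃ E₄)) ≤ E₄ :=
    (min_le_right _ _).trans ((min_le_right _ _).trans (min_le_right _ _))
  have r1 : C₁ ≤ max C₁ (max C₂ C₃) := le_max_left _ _
  have r2 : C₂ ≤ max C₁ (max C₂ C₃) := (le_max_left _ _).trans (le_max_right _ _)
  have r3 : C₃ ≤ max C₁ (max C₂ C₃) := (le_max_right _ _).trans (le_max_right _ _)
  obtain ⟨N₁, F₁, hN₁, z₁⟩ := h₁ P hPd hPe hPk (hOk.mono' hC₁ r1 q1)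
  obtain ⟨N₂, F₂, hN₂, z₂⟩ := h₂ P hPd hPe hPk (hOk.mono' hC₂ r2 q2)
  obtain ⟨N₃, F₃, hN₃, z₃⟩ := h₃ P hPd hPe hPk (hOk.mono' hC₃ r3 q3)
  refine ⟨N₁ * (N₂ * N₃), fun x => F₁ x + (F₂ x + F₃ x), Nat.mul_pos hN₁ (Nat.mul_pos hN₂ hN₃),
    fun c hc hS => ?_⟩
  have w1 := z₁ c (hc.mono' (Dvd.intro _ rfl) fun x => Nat.le_add_right _ _)
  have w2 := z₂ c (hc.mono' ((Dvd.intro _ rfl).trans (Dvd.intro_left _ rfl)) fun x => by
    show F₂ x ≤ F₁ x + (F₂ x + F₃ x)
    omega)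
  have w3 := z₃ c (hc.mono' ((Dvd.intro_left _ rfl).trans (Dvd.intro_left _ rfl)) fun x => by
    show F₃ x ≤ F₁ x + (F₂ x + F₃ x)
    omega)
  have hc1 : ∀ i < P.J, 1 ≤ c i := fun i hi => (hc i hi).2.1
  have w4 := h₄ (P.wc c) hPd hPe hPk ((hOk.mono' le_rfl (hC₁.trans r1) q4).wc' c) hc1
  subst hPe
  exact propJ_core (P.wc c) hOk.two hOk.lt (hOk.nonneg _) hc1 hη hS w1 w2 w3 w4

/-! ### The values -/

/-- Positivity near the natural densities. -/
def TargetBox : Prop := ∀ (d e : ℕ) (kap : ℕ → ℝ), Crit d e kap → ∃ E : ℝ, 0 < E ∧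
  ∀ κ : Finset (Fin (d - e)) → ℚ, (∀ S, S ≠ ∅ → |(κ S : ℝ) - S.card.factorial * kap S.card| ≤ E) →
    ∀ I, 0 < FF κ I

theorem targetCv_of (hX : TargetBox) : TargetT CVJ := by
  classical
  intro d e kap hk
  obtain ⟨E, hE, hX⟩ := hX d e kap hk
  refine ⟨1, E, le_rfl, hE, fun P hPd hPe hPk hOk => ?_⟩
  subst hPd hPe hPk
  obtain ⟨κ, hκ⟩ : ∃ κ : Finset (Fin P.J) → ℚ, κ = fun S => if 2 ≤ S.card then
    max (P.xp S.card (S.map Fin.valEmbedding)) (P.xm S.card (S.map Fin.valEmbedding)) else 0 := ⟨_, rfl⟩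
  have hp := hOk.epos le_rfl
  -- the distances
  have hbetE : ∀ i < P.J, P.bet (i + 1) ≤ E := by
    intro i hi
    have h1 : ∀ k, i + 1 + k ≤ P.J → P.bet (i + 1) ≤ P.eps (i + 1 + k) := by
      intro k
      induction k with
      | zero =>
        intro _
        have h2 := hOk.be i hi
        rw [one_mul] at h2
        exact h2
      | succ k ih =>
        intro h3
        have h4 := ih (by omega)
        have h5 := hOk.eb (i + 1 + k) (by omega)
        have h6 := hOk.be (i + 1 + k) (by omega)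
        rw [one_mul] at h5 h6
        have h7 : i + 1 + (k + 1) = i + 1 + k + 1 := by ring
        rw [h7]
        linarith
    have h2 := h1 (P.J - (i + 1)) (by omega)
    rw [show i + 1 + (P.J - (i + 1)) = P.J by omega] at h2
    exact h2.trans hOk.epsJ
  have hmax : ∀ S : Finset (Fin P.J), 2 ≤ S.card → ∃ i < P.J, (S.map Fin.valEmbedding).max = i := by
    intro S hS
    have hne : (S.map Fin.valEmbedding).Nonempty := by
      rw [map_nonempty]
      exact card_pos.1 (by omega)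
    obtain ⟨i, hi⟩ := max_of_nonempty hne
    exact ⟨i, mem_range.1 (map_sub S (mem_of_max hi)), hi⟩
  have hnat : ∀ S : Finset (Fin P.J), P.nat S.card (S.map Fin.valEmbedding) =
      S.card.factorial * P.kap S.card := by
    intro S
    unfold Par.nat
    rw [card_map, Nat.descFactorial_self, mul_comm]
  have hkx : ∀ S : Finset (Fin P.J), 2 ≤ S.card →
      |((κ S : ℚ) : ℝ) - S.card.factorial * P.kap S.card| ≤ E := by
    intro S hS
    obtain ⟨i, hi, hi'⟩ := hmax S hS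
    have hsub := map_sub S
    have hcd : (S.map Fin.valEmbedding).card = S.card := card_map _
    have h1 := hOk.xp S.card (S.map Fin.valEmbedding) hS hsub hcd i hi'
    have h2 := hbetE i hi
    have h3 := (hp i hi.le).2 hi
    rw [hnat] at h1
    rw [hκ]
    show |((if 2 ≤ S.card then max (P.xp S.card (S.map Fin.valEmbedding))
      (P.xm S.card (S.map Fin.valEmbedding)) else 0 : ℚ) : ℝ) - _| ≤ E
    rw [if_pos hS, Rat.cast_max]
    have h4 : (P.xm S.card (S.map Fin.valEmbedding) : ℝ) ≤ P.xp S.card (S.map Fin.valEmbedding) := by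
      by_cases h5 : P.kap S.card = 0
      · rw [hOk.xm0 S.card _ h5]
        rw [h5, mul_zero] at h1
        push_cast
        linarith [h1.1]
      · have h6 := (hOk.xm S.card (S.map Fin.valEmbedding) hS hsub hcd i hi' h5).1
        rw [hnat] at h6
        linarith [h1.1]
    rw [max_eq_left h4, abs_le]
    constructor
    · linarith [h1.1]
    · linarith [h1.2]
  have hkap1 : P.kap 1 = 0 := by
    by_contra h
    have := (hOk.supp 1 h).1
    omega
  have hF := hX κ fun S hS => by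
    by_cases h2 : 2 ≤ S.card
    · exact hkx S h2
    · have h1 : S.card = 1 := by
        have := card_pos.2 (nonempty_iff_ne_empty.2 hS)
        omega
      rw [hκ]
      show |((if 2 ≤ S.card then _ else 0 : ℚ) : ℝ) - _| ≤ E
      rw [if_neg h2, h1, hkap1, mul_zero, Rat.cast_zero, sub_zero, abs_zero]
      exact hE.le
  have hκ0 : ∀ S, 0 ≤ κ S := by
    intro S
    by_cases h2 : 2 ≤ S.card
    · obtain ⟨i, hi, hi'⟩ := hmax S h2
      have h1 := (hOk.xp S.card (S.map Fin.valEmbedding) h2 (map_sub S) (card_map _) i hi').1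
      have h3 := (hp i hi.le).2 hi
      rw [hnat] at h1
      have h4 : (0 : ℝ) ≤ S.card.factorial * P.kap S.card :=
        mul_nonneg (Nat.cast_nonneg _) (hOk.nonneg _)
      have h5 : (0 : ℝ) ≤ P.xp S.card (S.map Fin.valEmbedding) := by linarith
      have h6 : (0 : ℚ) ≤ P.xp S.card (S.map Fin.valEmbedding) := by exact_mod_cast h5
      rw [hκ]
      show 0 ≤ if 2 ≤ S.card then _ else _
      rw [if_pos h2]
      exact le_max_of_le_left h6
    · rw [hκ]
      show 0 ≤ if 2 ≤ S.card then _ else (0 : ℚ)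
      rw [if_neg h2]
  obtain ⟨N, hN, hEx⟩ := Pool.Agent.GD.BE.exact_le κ hκ0 univ fun J _ => hF J
  refine ⟨N, fun _ => 0, hN, fun c hc => ?_⟩
  refine cvJ_of (P.wc c) hOk.two hOk.lt (fun i hi => (hc i hi).2.1) κ hκ0 (fun S hS => ?_) ?_
  · have h1 : κ S = max (P.xp S.card (S.map Fin.valEmbedding)) (P.xm S.card (S.map Fin.valEmbedding)) := by
      rw [hκ]
      exact if_pos hS
    rw [h1]
    exact ⟨le_max_left _ _, le_max_right _ _⟩
  · intro Q _ m hm hcard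
    exact hEx (fun i : Fin P.J => c i) (fun i => ⟨(hc i.1 i.2).2.1, (hc i.1 i.2).1⟩) Q m hm hcard

end Pool.Agent.GD
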