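import Pool.Agent.GD.VT.Exf
import Pool.Agent.GD.Top.Main

/-!
# GD, TOP: positivity of the virtual dimensions near the natural densities
-/

set_option autoImplicit false

namespace Pool.Agent.GD

open Finset Pool.Agent.GD.BE Pool.Agent.GD.VT Topology

theorem continuous_FR {ι : Type} [DecidableEq ι] (I : Finset ι) :
    Continuous fun κ : Finset ι → ℝ => FR κ I := by
  unfold FR
  fun_prop

theorem box {ι : Type} [Fintype ι] [DecidableEq ι] (κ₀ : Finset ι → ℝ) (h : ∀ I, 0 < FR κ₀ I) :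
    ∃ E : ℝ, 0 < E ∧ ∀ κ : Finset ι → ℝ, (∀ S, S ≠ ∅ → |κ S - κ₀ S| ≤ E) → ∀ I, 0 < FR κ I := by
  classical
  have h1 : ∀ᶠ κ in 𝓝 κ₀, ∀ I, 0 < FR κ I := by
    rw [Filter.eventually_all]
    intro I
    exact (continuous_FR I).continuousAt.eventually (lt_mem_nhds (h I))
  obtain ⟨ε, hε, h2⟩ := Metric.eventually_nhds_iff.1 h1
  refine ⟨ε / 2, by linarith, fun κ hκ I => ?_⟩
  have h3 : FR κ I = FR (fun S => if S = ∅ then κ₀ ∅ else κ S) I :=
    FR_congr fun S _ hS => by rw [if_neg hS]
  rw [h3]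
  refine h2 ?_ I
  refine lt_of_le_of_lt ((dist_pi_le_iff (by linarith : (0 : ℝ) ≤ ε / 2)).2 fun S => ?_)
    (by linarith : ε / 2 < ε)
  rw [Real.dist_eq]
  by_cases hS : S = ∅
  · rw [hS, if_pos rfl, sub_self, abs_zero]
    linarith
  · rw [if_neg hS]
    exact hκ S hS

theorem targetBox : TargetBox := by
  intro d e kap hk
  have h1 : kap 1 = 0 := by
    by_contra h
    have := (hk.supp 1 h).1
    omega
  obtain ⟨E, hE, h2⟩ := box (ι := Fin (d - e)) (fun S => (S.card.factorial : ℝ) * kap S.card)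
    (fun I => by
      rw [FR_nat kap h1 I]
      have h3 := card_le_univ I
      rw [Fintype.card_fin] at h3
      have h4 := hk.two
      have h5 := hk.lt
      exact mul_pos (by positivity) (hk.gpos _ (by omega)))
  refine ⟨E, hE, fun κ hκ I => ?_⟩
  have h3 := h2 (fun S => (κ S : ℝ)) hκ I
  rw [FR_cast] at h3
  exact_mod_cast h3

/-- The values of the vector valued forms. -/
theorem targetCv : TargetT CVJ := targetCv_of targetBox

end Pool.Agent.GD
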