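import Pool.Agent.GD.Top.Stmt
import Pool.Agent.GD.TTDefs

/-!
# GD, TOP: the values of the vector valued forms

The members of `W`-degree `0` (support in the blocks of size = the exponent) give rank one conditions on
the coefficient vectors; the tensor system of these conditions is general.
-/

set_option autoImplicit false
set_option linter.unusedSectionVars false

namespace Pool.Agent.GD

open Finset Module MvPolynomial Pool.Agent.H51.TB Pool.Agent.V7.ST
open Pool.Agent.GD.Top (Bl TI Gam HasX IsB zp zp_apply Gam_apply exists_HasX sum_split)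
open Pool.Agent.H18.Ex (tcr)
open Pool.Agent.V7 (msk)

/-- The vanishing sets of the members. -/
def Kd.mA : Kd → ℕ → Finset ℕ
  | .ord _ A, _ => A
  | .cl _ _ _ As, y => As.getD y ∅

/-- The support of a member in the first `J` blocks. -/
def Kd.sp (J : ℕ) (k : Kd) (y : ℕ) : Finset (Fin J) := univ.filter fun i => i.1 ∉ k.mA y

/-- The member has the `W`-degree `0`. -/
def Kd.isz (J : ℕ) (k : Kd) (y : ℕ) : Prop := y < k.nm ∧ (k.sp J y).card = k.ex

instance (J : ℕ) (k : Kd) (y : ℕ) : Decidable (k.isz J y) := by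
  unfold Kd.isz
  infer_instance

/-- The members of `W`-degree `0` are independent of one another. -/
def Kd.Gd (d J : ℕ) : Kd → Prop
  | .ord _ _ => True
  | .cl e dl i As => As.length ≤ d ∧ ∃ y < As.length, ¬ (Kd.cl e dl i As).isz J y

section

variable {ν : Type} [Fintype ν] [DecidableEq ν] {c : ℕ → ℕ} {J m d : ℕ}

theorem eval_pt (β : ν → ℕ) (k : Kd) (x : Fin (d + 1)) (q : ν × Fin (d + 1) → ℂ) (s : ν) :
    eval q (pt β k x (fun s => (X s : MvPolynomial (ν × Fin (d + 1)) ℂ)) s) = pt β k x q s := by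
  rcases k with ⟨e, A⟩ | ⟨e, dl, i, As⟩
  · simp only [pt, msk]
    split_ifs
    · rw [map_zero]
    · rw [eval_X]
  · simp only [pt, msk]
    split_ifs
    · rw [map_zero]
    · rw [map_neg, map_sum]
      congr 1
      refine sum_congr rfl fun y _ => ?_
      split_ifs
      · rw [eval_X]
      · rw [map_zero]
    · rw [eval_X]

theorem eval_tcr_pt (β : ν → ℕ) (k : Kd) (x : Fin (d + 1)) (q : ν × Fin (d + 1) → ℂ) (a b : ν → ℕ) :
    eval q (tcr (pt β k x (fun s => (X s : MvPolynomial (ν × Fin (d + 1)) ℂ))) a b) =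
      tcr (pt β k x q) a b := by
  unfold tcr
  rw [map_prod]
  refine prod_congr rfl fun s _ => ?_
  rw [map_mul, map_pow, map_natCast, eval_pt]

/-- The conditions of the points. -/
theorem V_pt {D : ℕ} {β : ν → ℕ} {I : Finset ℕ} {A : Finset (ν → ℕ)} {κ : Type} {rest : κ → Kd}
    {p : κ → ν × Fin (d + 1) → ℂ} {f : {a // a ∈ A} → ℂ} (hf : f ∈ (LSA d D β I A).V rest p) (i : κ)
    (x : Fin (d + 1)) (hx : x.1 < (rest i).nm) (b : ν → ℕ) (hb : ∑ s, b s + (rest i).ex ≤ D) :
    ∑ a : {a // a ∈ A}, f a * tcr (pt β (rest i) x (p i)) a.1 b = 0 := by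
  have h1 := (Sys.mem_V _ rest p f).1 hf i (Sum.inl ⟨(x, b), hx, hb⟩)
  rw [← h1]
  refine sum_congr rfl fun a _ => ?_
  rw [mul_comm]
  congr 1
  exact (eval_tcr_pt β (rest i) x (p i) a.1 b).symm

/-- The system of the tensors. -/
noncomputable def cvS (d : ℕ) (φ : Bl c J ⊕ Fin m ≃ ν) (β : ν → ℕ) :
    Sys (TI c J) (ν × Fin (d + 1)) Kd where
  R := fun k => {x : Fin (d + 1) // k.isz J x.1} × TI c J
  fin := fun _ => inferInstance
  co := fun k x a => if ∀ j, j ∉ k.sp J x.1.1.1 → a j = x.2 j then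
    ∏ j ∈ k.sp J x.1.1.1, pt β k x.1.1 (fun s => (X s : MvPolynomial (ν × Fin (d + 1)) ℂ))
      (φ (Sum.inl ⟨j, a j⟩)) else 0

/-- The members of `W`-degree `0`. -/
abbrev Mz (J d : ℕ) {κ : Type} (rest : κ → Kd) : Type :=
  {x : κ × Fin (d + 1) // (rest x.1).isz J x.2.1}

/-- Their supports. -/
def mz (J d : ℕ) {κ : Type} (rest : κ → Kd) (x : Mz J d rest) : Finset (Fin J) :=
  (rest x.1.1).sp J x.1.2.1

/-- Their positions. -/
def qz (φ : Bl c J ⊕ Fin m ≃ ν) (β : ν → ℕ) {κ : Type} (rest : κ → Kd)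
    (p : κ → ν × Fin (d + 1) → ℂ) (x : Mz J d rest) (s : Bl c J) : ℂ :=
  pt β (rest x.1.1) x.1.2 (p x.1.1) (φ (Sum.inl s))

theorem V_cvS (φ : Bl c J ⊕ Fin m ≃ ν) (β : ν → ℕ) {κ : Type} (rest : κ → Kd)
    (p : κ → ν × Fin (d + 1) → ℂ) : (cvS d φ β).V rest p =
      (TS (Fin J) fun i => c i).V (mz J d rest) (qz φ β rest p) := by
  ext g
  rw [Sys.mem_V, mem_TS]
  have key : ∀ (i : κ) (x : {x : Fin (d + 1) // (rest i).isz J x.1}) (w a : TI c J)
      (hd : Decidable (∀ j, j ∉ mz J d rest ⟨(i, x.1), x.2⟩ → a j = w j)),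
      eval (p i) ((cvS d φ β).co (rest i) (x, w) a) * g a =
        @ite ℂ (∀ j, j ∉ mz J d rest ⟨(i, x.1), x.2⟩ → a j = w j) hd
          ((∏ j ∈ mz J d rest ⟨(i, x.1), x.2⟩, qz φ β rest p ⟨(i, x.1), x.2⟩ ⟨j, a j⟩) * g a) 0 := by
    intro i x w a _
    have e1 : (cvS d φ β).co (rest i) (x, w) a = if ∀ j, j ∉ (rest i).sp J x.1.1 → a j = w j then
        ∏ j ∈ (rest i).sp J x.1.1, pt β (rest i) x.1 (fun s => (X s : MvPolynomial (ν × Fin (d + 1)) ℂ))
          (φ (Sum.inl ⟨j, a j⟩)) else 0 := rfl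
    by_cases h : ∀ j, j ∉ (rest i).sp J x.1.1 → a j = w j
    · rw [e1, if_pos h, map_prod]
      refine Eq.trans ?_ (if_pos h).symm
      congr 1
      refine prod_congr rfl fun j _ => ?_
      rw [eval_pt]
      rfl
    · rw [e1, if_neg h, map_zero, zero_mul]
      exact (if_neg h).symm
  constructor
  · rintro h ⟨⟨i, x⟩, hx⟩ w
    have h1 := h i (⟨x, hx⟩, w)
    rw [← h1]
    unfold ctr
    exact sum_congr rfl fun a _ => (key i ⟨x, hx⟩ w a _).symm
  · rintro h i ⟨⟨x, hx⟩, w⟩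
    have h1 := h ⟨(i, x), hx⟩ w
    rw [← h1]
    unfold ctr
    exact sum_congr rfl fun a _ => key i ⟨x, hx⟩ w a _

/-! ### Realisation of the positions -/

theorem sum_fin_lt (f : ℕ → ℂ) (d l : ℕ) (hl : l ≤ d + 1) :
    ∑ y : Fin (d + 1), (if y.1 < l then f y.1 else 0) = ∑ y ∈ range l, f y := by
  rw [Fin.sum_univ_eq_sum_range (fun y => if y < l then f y else 0) (d + 1), ← sum_filter]
  congr 1
  ext y
  rw [mem_filter, mem_range, mem_range]
  omega

theorem pt_real {φ : Bl c J ⊕ Fin m ≃ ν} {β : ν → ℕ} (hφ : IsB φ β) (e dl i : ℕ)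
    (As : List (Finset ℕ)) (hl : As.length ≤ d) (T : ℕ → Bl c J → ℂ)
    (hT : ∀ s, ∑ y ∈ range As.length, T y s = 0) (y : Fin (d + 1)) (_ : y.1 < As.length)
    (s : Bl c J) (hs : s.1.1 ∉ As.getD y.1 ∅) :
    pt β (Kd.cl e dl i As) y (fun z : ν × Fin (d + 1) =>
      Sum.elim (fun s => T z.2.1 s) (fun _ => 0) (φ.symm z.1)) (φ (Sum.inl s)) = T y.1 s := by
  have hβ : β (φ (Sum.inl s)) = s.1.1 := hφ.1 s
  simp only [pt, msk]
  rw [hβ, if_neg hs]
  simp only [Equiv.symm_apply_apply, Sum.elim_inl]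
  by_cases h : s.1.1 = i ∧ y.1 + 1 = As.length
  · rw [if_pos h]
    have h1 : ∀ y' : Fin (d + 1), (if y'.1 + 1 < As.length then T y'.1 s else 0) =
        if y'.1 < y.1 then T y'.1 s else 0 := by
      intro y'
      have h2 : y'.1 + 1 < As.length ↔ y'.1 < y.1 := by omega
      rw [if_congr h2 rfl rfl]
    rw [sum_congr rfl fun y' _ => h1 y', sum_fin_lt (fun y => T y s) d y.1 (by omega)]
    have h3 := hT s
    rw [← h.2, sum_range_succ] at h3
    rw [neg_eq_iff_add_eq_zero, h3]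
  · rw [if_neg h]

theorem realise {φ : Bl c J ⊕ Fin m ≃ ν} {β : ν → ℕ} (hφ : IsB φ β) {κ : Type} (rest : κ → Kd)
    (hG : ∀ i, (rest i).Gd d J) (t : Mz J d rest → Bl c J → ℂ) :
    ∃ p : κ → ν × Fin (d + 1) → ℂ, ∀ (x : Mz J d rest) (s : Bl c J), s.1 ∈ mz J d rest x →
      qz φ β rest p x s = t x s := by
  classical
  have key : ∀ (k : Kd) (_ : k.Gd d J) (T₀ : ℕ → Bl c J → ℂ), ∃ q : ν × Fin (d + 1) → ℂ,
      ∀ y : Fin (d + 1), k.isz J y.1 → ∀ s : Bl c J, s.1 ∈ k.sp J y.1 →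
        pt β k y q (φ (Sum.inl s)) = T₀ y.1 s := by
    intro k hk T₀
    rcases k with ⟨e, A⟩ | ⟨e, dl, i₀, As⟩
    · refine ⟨fun z => Sum.elim (fun s => T₀ 0 s) (fun _ => 0) (φ.symm z.1), ?_⟩
      intro y hy s hs
      have hy0 : y = 0 := by
        apply Fin.ext
        have := hy.1
        have h2 : (Kd.ord e A).nm = 1 := rfl
        rw [h2] at this
        show y.1 = 0
        omega
      subst hy0
      have hβ : β (φ (Sum.inl s)) = s.1.1 := hφ.1 s
      have hs' : s.1.1 ∉ A := by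
        have := (mem_filter.1 hs).2
        exact this
      simp only [pt, msk]
      rw [hβ, if_neg hs']
      simp only [Equiv.symm_apply_apply, Sum.elim_inl]
      rfl
    · obtain ⟨hl, y₀, hy₀, hz⟩ := hk
      let T : ℕ → Bl c J → ℂ := fun y s => if y = y₀ then
        - ∑ y' ∈ (range As.length).erase y₀, T₀ y' s else T₀ y s
      have hT : ∀ s, ∑ y ∈ range As.length, T y s = 0 := by
        intro s
        rw [← add_sum_erase _ _ (mem_range.2 hy₀)]
        have h3 : ∑ y' ∈ (range As.length).erase y₀, T y' s =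
            ∑ y' ∈ (range As.length).erase y₀, T₀ y' s :=
          sum_congr rfl fun y' hy' => if_neg (ne_of_mem_erase hy')
        rw [h3]
        show (if y₀ = y₀ then _ else _) + _ = _
        rw [if_pos rfl, neg_add_cancel]
      refine ⟨fun z => Sum.elim (fun s => T z.2.1 s) (fun _ => 0) (φ.symm z.1), ?_⟩
      intro y hy s hs
      have hy' : y.1 < As.length := hy.1
      have hs' : s.1.1 ∉ As.getD y.1 ∅ := (mem_filter.1 hs).2
      rw [pt_real hφ e dl i₀ As hl T hT y hy' s hs']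
      have hne : y.1 ≠ y₀ := by
        intro h
        apply hz
        rw [← h]
        exact hy
      show (if y.1 = y₀ then _ else _) = _
      rw [if_neg hne]
  have h1 : ∀ i : κ, ∃ q : ν × Fin (d + 1) → ℂ, ∀ y : Fin (d + 1), (rest i).isz J y.1 →
      ∀ s : Bl c J, s.1 ∈ (rest i).sp J y.1 → pt β (rest i) y q (φ (Sum.inl s)) =
        if h : y.1 < d + 1 ∧ (rest i).isz J y.1 then t ⟨(i, ⟨y.1, h.1⟩), h.2⟩ s else 0 := fun i =>
    key (rest i) (hG i) fun y s => if h : y < d + 1 ∧ (rest i).isz J y then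
      t ⟨(i, ⟨y, h.1⟩), h.2⟩ s else 0
  choose p hp using h1
  refine ⟨p, fun x s hs => ?_⟩
  have h2 := hp x.1.1 x.1.2 x.2 s hs
  rw [dif_pos ⟨x.1.2.2, x.2⟩] at h2
  exact h2

theorem ctr_congr' {ι : Type} [Fintype ι] [DecidableEq ι] {c : ι → ℕ} (S : Finset ι)
    {y y' : (Σ i, Fin (c i)) → ℂ} (h : ∀ s : Σ i, Fin (c i), s.1 ∈ S → y s = y' s)
    (F : (∀ i, Fin (c i)) → ℂ) (w : ∀ i, Fin (c i)) : ctr S y F w = ctr S y' F w := by
  unfold ctr
  refine sum_congr rfl fun e _ => ?_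
  split_ifs
  · congr 1
    exact prod_congr rfl fun j hj => h _ hj
  · rfl

/-- The system of the tensors has the general dimension of the tensor system. -/
theorem gn_cvS {φ : Bl c J ⊕ Fin m ≃ ν} {β : ν → ℕ} (hφ : IsB φ β) {κ : Type} [Fintype κ]
    (rest : κ → Kd) (hG : ∀ i, (rest i).Gd d J) :
    Gn κ (ν × Fin (d + 1)) fun p =>
      finrank ℂ ((cvS d φ β).V rest p) = (TS (Fin J) fun i => c i).gd (mz J d rest) := by
  classical
  obtain ⟨t, ht⟩ := gd_attained (TS (Fin J) fun i => c i) (mz J d rest)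
  obtain ⟨p₀, hp₀⟩ := realise hφ rest hG t
  have h1 : (cvS d φ β).gd rest ≤ (TS (Fin J) fun i => c i).gd (mz J d rest) := by
    refine (gd_le (cvS d φ β) rest p₀).trans_eq ?_
    rw [V_cvS, ← ht]
    have h2 : (TS (Fin J) fun i => c i).V (mz J d rest) (qz φ β rest p₀) =
        (TS (Fin J) fun i => c i).V (mz J d rest) t := by
      ext g
      rw [mem_TS, mem_TS]
      refine forall_congr' fun x => forall_congr' fun w => ?_
      rw [ctr_congr' (mz J d rest x) (fun s hs => hp₀ x s hs)]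
    rw [h2]
  refine (gn_gd (cvS d φ β) rest).mono fun p hp => ?_
  have h2 : (TS (Fin J) fun i => c i).gd (mz J d rest) ≤ finrank ℂ ((cvS d φ β).V rest p) := by
    rw [V_cvS]
    exact gd_le (TS (Fin J) fun i => c i) (mz J d rest) (qz φ β rest p)
  exact le_antisymm (hp.trans_le h1) h2

/-! ### The conditions -/

theorem coeff_Gam' (φ : Bl c J ⊕ Fin m ≃ ν) {A : Finset (ν → ℕ)}
    (f : {e // e ∈ A} → ℂ) (a : TI c J) (α : Fin m →₀ ℕ) :
    coeff α (Gam φ f a) = ∑ e : {e // e ∈ A},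
      if HasX φ a e.1 ∧ zp φ e.1 = α then f e else 0 := by
  classical
  rw [Gam_apply, coeff_sum]
  refine sum_congr rfl fun e _ => ?_
  by_cases h : HasX φ a e.1
  · rw [if_pos h, coeff_monomial]
    by_cases h' : zp φ e.1 = α
    · rw [if_pos h', if_pos ⟨h, h'⟩]
    · rw [if_neg h', if_neg fun h'' => h' h''.2]
  · rw [if_neg h, if_neg fun h'' => h h''.1, coeff_zero]

/-- The derivative. -/
noncomputable def der (φ : Bl c J ⊕ Fin m ≃ ν) (S : Finset (Fin J)) (w : TI c J) (α : Fin m →₀ ℕ)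
    (s : ν) : ℕ :=
  Sum.elim (fun x : Bl c J => if x.1 ∉ S ∧ x.2 = w x.1 then 1 else 0) (fun t => α t) (φ.symm s)

theorem der_inl (φ : Bl c J ⊕ Fin m ≃ ν) (S : Finset (Fin J)) (w : TI c J) (α : Fin m →₀ ℕ)
    (x : Bl c J) : der φ S w α (φ (Sum.inl x)) = if x.1 ∉ S ∧ x.2 = w x.1 then 1 else 0 := by
  unfold der
  rw [Equiv.symm_apply_apply]
  rfl

theorem der_inr (φ : Bl c J ⊕ Fin m ≃ ν) (S : Finset (Fin J)) (w : TI c J) (α : Fin m →₀ ℕ)
    (t : Fin m) : der φ S w α (φ (Sum.inr t)) = α t := by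
  unfold der
  rw [Equiv.symm_apply_apply]
  rfl

theorem sum_der (φ : Bl c J ⊕ Fin m ≃ ν) (S : Finset (Fin J)) (w : TI c J) (α : Fin m →₀ ℕ) :
    ∑ s, der φ S w α s + S.card = J + ∑ t, α t := by
  classical
  rw [sum_split φ]
  simp only [der_inl, der_inr]
  rw [Fintype.sum_sigma]
  have h1 : ∀ i : Fin J, ∑ r : Fin (c i), (if i ∉ S ∧ r = w i then 1 else 0) =
      if i ∈ S then 0 else 1 := by
    intro i
    by_cases h : i ∈ S
    · rw [if_pos h]
      exact sum_eq_zero fun r _ => if_neg fun h' => h'.1 h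
    · rw [if_neg h, sum_eq_single (w i)]
      · rw [if_pos ⟨h, rfl⟩]
      · intro r _ hr
        rw [if_neg fun h' => hr h'.2]
      · intro h'
        exact absurd (mem_univ _) h'
  rw [sum_congr rfl fun i _ => h1 i]
  have h2 : ∑ i : Fin J, (if i ∈ S then 0 else 1) + S.card = J := by
    have h3 : ∑ i : Fin J, (if i ∈ S then 0 else 1) = (univ.filter fun i => i ∉ S).card := by
      rw [card_filter]
      exact sum_congr rfl fun i _ => by split_ifs <;> rfl
    have h4 : (univ.filter fun i : Fin J => i ∉ S) = Sᶜ := by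
      ext i
      simp
    rw [h3, h4, card_compl, Fintype.card_fin]
    have := card_le_univ S
    rw [Fintype.card_fin] at this
    omega
  omega

/-- The conditions of a point of `W`-degree `0` are conditions on the coefficient vectors. -/
theorem tcr_eq {φ : Bl c J ⊕ Fin m ≃ ν} {β : ν → ℕ} (hφ : IsB φ β) {D : ℕ} (q : ν → ℂ)
    (S : Finset (Fin J)) (w : TI c J) (α : Fin m →₀ ℕ) (hα : J + ∑ t, α t = D)
    (e : {e // e ∈ Ex β D (range J)}) :
    tcr q e.1 (der φ S w α) = ∑ a : TI c J,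
      if (∀ j, j ∉ S → a j = w j) ∧ HasX φ a e.1 ∧ zp φ e.1 = α then
        ∏ j ∈ S, q (φ (Sum.inl ⟨j, a j⟩)) else 0 := by
  classical
  have hsum := (mem_Ex.1 e.2).1
  rw [sum_split φ] at hsum
  have hX : J ≤ ∑ x, e.1 (φ (Sum.inl x)) := by
    have h1 : ∀ i : Fin J, 1 ≤ ∑ r, e.1 (φ (Sum.inl ⟨i, r⟩)) := by
      intro i
      obtain ⟨s, hs, hs'⟩ := (mem_Ex.1 e.2).2 i.1 (mem_range.2 i.2)
      obtain ⟨x, rfl⟩ := φ.surjective s
      rcases x with ⟨i', r⟩ | t
      · have h2 := hφ.1 ⟨i', r⟩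
        rw [hs] at h2
        have h3 : i = i' := Fin.ext h2
        subst h3
        refine le_trans (Nat.one_le_iff_ne_zero.2 hs') ?_
        exact single_le_sum (f := fun r => e.1 (φ (Sum.inl ⟨i, r⟩))) (fun _ _ => Nat.zero_le _)
          (mem_univ r)
      · have h2 := hφ.2 t
        have := i.2
        omega
    rw [Fintype.sum_sigma]
    calc J = ∑ _i : Fin J, 1 := by simp
      _ ≤ _ := sum_le_sum fun i _ => h1 i
  by_cases hz : zp φ e.1 = α
  · have hz' : ∀ t, e.1 (φ (Sum.inr t)) = α t := fun t => by rw [← hz, zp_apply]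
    have h2 : ∑ x, e.1 (φ (Sum.inl x)) = J := by
      simp only [hz'] at hsum
      omega
    obtain ⟨a, ha⟩ := exists_HasX hφ e.2 h2.le
    have huniq : ∀ a' : TI c J, HasX φ a' e.1 → a' = a := by
      intro a' h3
      funext i
      have h4 := ha ⟨i, a' i⟩
      have h5 := h3 ⟨i, a' i⟩
      simp only [if_true] at h5
      rw [h5] at h4
      by_contra h6
      simp only [if_neg h6] at h4
      omega
    have h3 : tcr q e.1 (der φ S w α) = ∏ i : Fin J, ∏ r : Fin (c i),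
        (((e.1 (φ (Sum.inl ⟨i, r⟩))).choose (der φ S w α (φ (Sum.inl ⟨i, r⟩))) : ℕ) : ℂ) *
          q (φ (Sum.inl ⟨i, r⟩)) ^ (e.1 (φ (Sum.inl ⟨i, r⟩)) - der φ S w α (φ (Sum.inl ⟨i, r⟩))) := by
      unfold tcr
      rw [← φ.prod_comp, Fintype.prod_sum_type, Fintype.prod_sigma]
      have h4 : ∏ t : Fin m, (((e.1 (φ (Sum.inr t))).choose (der φ S w α (φ (Sum.inr t))) : ℕ) : ℂ) *
          q (φ (Sum.inr t)) ^ (e.1 (φ (Sum.inr t)) - der φ S w α (φ (Sum.inr t))) = 1 := by
        refine prod_eq_one fun t _ => ?_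
        rw [der_inr, hz', Nat.choose_self, Nat.sub_self, pow_zero, Nat.cast_one, mul_one]
      rw [h4, mul_one]
    have h4 : ∀ i : Fin J, ∏ r : Fin (c i),
        (((e.1 (φ (Sum.inl ⟨i, r⟩))).choose (der φ S w α (φ (Sum.inl ⟨i, r⟩))) : ℕ) : ℂ) *
          q (φ (Sum.inl ⟨i, r⟩)) ^ (e.1 (φ (Sum.inl ⟨i, r⟩)) - der φ S w α (φ (Sum.inl ⟨i, r⟩))) =
        if i ∈ S then q (φ (Sum.inl ⟨i, a i⟩)) else if a i = w i then 1 else 0 := by
      intro i
      by_cases hi : i ∈ S
      · rw [if_pos hi, prod_eq_single (a i)]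
        · rw [der_inl, ha ⟨i, a i⟩, if_pos rfl, if_neg fun h => h.1 hi, Nat.choose_zero_right,
            Nat.cast_one, one_mul, Nat.sub_zero, pow_one]
        · intro r _ hr
          rw [der_inl, ha ⟨i, r⟩, if_neg hr, if_neg fun h => h.1 hi, Nat.choose_zero_right,
            Nat.cast_one, one_mul, Nat.sub_zero, pow_zero]
        · intro h
          exact absurd (mem_univ _) h
      · rw [if_neg hi]
        by_cases haw : a i = w i
        · rw [if_pos haw]
          refine prod_eq_one fun r _ => ?_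
          rw [der_inl, ha ⟨i, r⟩]
          show (((if r = a i then 1 else 0 : ℕ).choose (if i ∉ S ∧ r = w i then 1 else 0) : ℕ) : ℂ) *
            q (φ (Sum.inl ⟨i, r⟩)) ^ ((if r = a i then 1 else 0) - if i ∉ S ∧ r = w i then 1 else 0) = 1
          by_cases hr : r = a i
          · rw [if_pos hr, if_pos ⟨hi, hr.trans haw⟩]
            simp
          · rw [if_neg hr, if_neg fun h => hr (h.2.trans haw.symm)]
            simp
        · rw [if_neg haw]
          refine prod_eq_zero (mem_univ (w i)) ?_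
          rw [der_inl, ha ⟨i, w i⟩]
          show (((if w i = a i then 1 else 0 : ℕ).choose (if i ∉ S ∧ w i = w i then 1 else 0) : ℕ) : ℂ) *
            _ = 0
          rw [if_neg fun h => haw h.symm, if_pos ⟨hi, rfl⟩]
          simp
    rw [h3, prod_congr rfl fun i _ => h4 i, sum_eq_single a]
    · by_cases haw : ∀ j, j ∉ S → a j = w j
      · rw [if_pos ⟨haw, ha, hz⟩]
        have h5 : ∀ i : Fin J, (if i ∈ S then q (φ (Sum.inl ⟨i, a i⟩)) else
            if a i = w i then (1 : ℂ) else 0) = if i ∈ S then q (φ (Sum.inl ⟨i, a i⟩)) else 1 := by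
          intro i
          by_cases hi : i ∈ S
          · rw [if_pos hi, if_pos hi]
          · rw [if_neg hi, if_neg hi, if_pos (haw i hi)]
        rw [prod_congr rfl fun i _ => h5 i, prod_ite_mem, univ_inter]
      · rw [if_neg fun h => haw h.1]
        push Not at haw
        obtain ⟨j, hj, hj'⟩ := haw
        refine prod_eq_zero (mem_univ j) ?_
        rw [if_neg hj, if_neg hj']
    · intro a' _ hne
      rw [if_neg]
      rintro ⟨_, h5, _⟩
      exact hne (huniq a' h5)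
    · intro h
      exact absurd (mem_univ a) h
  · rw [sum_eq_zero fun a _ => if_neg fun h => hz h.2.2]
    have h1 : ∃ t, e.1 (φ (Sum.inr t)) < α t := by
      by_contra hcon
      push Not at hcon
      apply hz
      have h2 : ∑ t, α t = ∑ t, e.1 (φ (Sum.inr t)) := by
        have := sum_le_sum fun t (_ : t ∈ (univ : Finset (Fin m))) => hcon t
        omega
      ext t
      rw [zp_apply]
      exact ((sum_eq_sum_iff_of_le fun t _ => hcon t).1 h2 t (mem_univ t)).symm
    obtain ⟨t, ht⟩ := h1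
    unfold tcr
    refine prod_eq_zero (mem_univ (φ (Sum.inr t))) ?_
    rw [der_inr, Nat.choose_eq_zero_of_lt ht, Nat.cast_zero, zero_mul]

theorem mem_B {φ : Bl c J ⊕ Fin m ≃ ν} {β : ν → ℕ} (hφ : IsB φ β) {κ : Type}
    (rest : κ → Kd) (p : κ → ν × Fin (d + 1) → ℂ) (f : {e // e ∈ Ex β d (range J)} → ℂ)
    (hf : f ∈ (LS d d β (range J)).V rest p) (α : Fin m →₀ ℕ) :
    (fun a => coeff α (Gam φ f a)) ∈ (cvS d φ β).V rest p := by
  classical
  rw [V_cvS, mem_TS]
  rintro ⟨⟨i, x⟩, hx, hx'⟩ w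
  have hsp : mz J d rest ⟨(i, x), hx, hx'⟩ = (rest i).sp J x.1 := rfl
  have hqz : qz φ β rest p ⟨(i, x), hx, hx'⟩ = fun s => pt β (rest i) x (p i) (φ (Sum.inl s)) := rfl
  rw [hsp, hqz]
  unfold ctr
  by_cases hα : J + ∑ t, α t = d
  · have hb : ∑ s, der φ ((rest i).sp J x.1) w α s + (rest i).ex ≤ d := by
      have := sum_der φ ((rest i).sp J x.1) w α
      have hx2 : ((rest i).sp J x.1).card = (rest i).ex := hx'
      omega
    have h2 := V_pt hf i x hx _ hb
    have h3 : ∀ e : {e // e ∈ Ex β d (range J)}, f e * tcr (pt β (rest i) x (p i)) e.1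
        (der φ ((rest i).sp J x.1) w α) = ∑ a : TI c J,
          if ∀ j, j ∉ (rest i).sp J x.1 → a j = w j then
            (∏ j ∈ (rest i).sp J x.1, pt β (rest i) x (p i) (φ (Sum.inl ⟨j, a j⟩))) *
              (if HasX φ a e.1 ∧ zp φ e.1 = α then f e else 0) else 0 := by
      intro e
      rw [tcr_eq hφ _ _ w α hα e, mul_sum]
      refine sum_congr rfl fun a _ => ?_
      by_cases h4 : ∀ j, j ∉ (rest i).sp J x.1 → a j = w j
      · by_cases h5 : HasX φ a e.1 ∧ zp φ e.1 = α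
        · rw [if_pos ⟨h4, h5⟩, if_pos h4, if_pos h5, mul_comm]
        · rw [if_neg fun h => h5 h.2, if_pos h4, if_neg h5, mul_zero, mul_zero]
      · rw [if_neg fun h => h4 h.1, if_neg h4, mul_zero]
    rw [sum_congr rfl fun e _ => h3 e, sum_comm] at h2
    refine Eq.trans ?_ h2
    refine sum_congr rfl fun a _ => ?_
    by_cases h4 : ∀ j, j ∉ (rest i).sp J x.1 → a j = w j
    · simp only [if_pos h4]
      rw [coeff_Gam', mul_sum]
    · simp only [if_neg h4]
      rw [sum_const_zero]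
  · refine sum_eq_zero fun a _ => ?_
    have h4 : coeff α (Gam φ f a) = 0 := by
      rw [coeff_Gam']
      refine sum_eq_zero fun e _ => if_neg ?_
      rintro ⟨h1, h2⟩
      apply hα
      have h3 := (mem_Ex.1 e.2).1
      rw [sum_split φ, h1.sum] at h3
      have h4 : ∀ t, e.1 (φ (Sum.inr t)) = α t := fun t => by rw [← h2, zp_apply]
      simp only [h4] at h3
      exact h3
    simp only [h4, mul_zero, ite_self]

end

end Pool.Agent.GD
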