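import Pool.Agent.GD.Top.CV

/-!
# GD, TOP: one more point of the main kind

A point of the main kind on the last level imposes at most as many conditions as there are values.
-/

set_option autoImplicit false
set_option linter.unusedSectionVars false

namespace Pool.Agent.GD.Top

open Finset Module MvPolynomial Pool.Agent.H51.TB Pool.Agent.GD Pool.Agent.H54.V7 Pool.Agent.V7.ST
open Pool.Agent.H18.Ex (tcr)
open Pool.Agent.V7 (msk)

variable {ν : Type} [Fintype ν] [DecidableEq ν] {c : ℕ → ℕ} {J m : ℕ}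

/-- The conditions of a point of the main kind. -/
theorem main_mem {φ : Bl c J ⊕ Fin m ≃ ν} {β : ν → ℕ} (hβ : IsB φ β) {d D e : ℕ} (hD : D ≤ J + e)
    (q : ν × Fin (d + 1) → ℂ) (f : {e // e ∈ Ex β D (range J)} → ℂ)
    (hf : ∀ a, eval (fun t => q (φ (Sum.inr t), 0)) (Gam φ f a) = 0) :
    f ∈ (LS d D β (range J)).V (fun _ : Unit => Kd.ord e (range J)) fun _ => q := by
  classical
  rw [mem_ord]
  intro b hb
  have hx : ∀ x, (msk β (range J) fun s => q (s, 0)) (φ (Sum.inl x)) = 0 := by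
    intro x
    unfold msk
    rw [if_pos]
    rw [hβ.1 x, mem_range]
    exact x.1.2
  have hz : ∀ t, (msk β (range J) fun s => q (s, 0)) (φ (Sum.inr t)) = q (φ (Sum.inr t), 0) := by
    intro t
    unfold msk
    rw [if_neg]
    rw [mem_range]
    have := hβ.2 t
    omega
  have htcr : ∀ a : ν → ℕ, tcr (msk β (range J) fun s => q (s, 0)) a b =
      (∏ x, if a (φ (Sum.inl x)) = b (φ (Sum.inl x)) then (1 : ℂ) else 0) *
        ∏ t, (((a (φ (Sum.inr t))).choose (b (φ (Sum.inr t))) : ℕ) : ℂ) *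
          q (φ (Sum.inr t), 0) ^ (a (φ (Sum.inr t)) - b (φ (Sum.inr t))) := by
    intro a
    unfold tcr
    rw [← φ.prod_comp, Fintype.prod_sum_type]
    congr 1
    · refine prod_congr rfl fun x _ => ?_
      rw [hx]
      split_ifs with h
      · rw [h, Nat.choose_self, Nat.sub_self, pow_zero, Nat.cast_one, mul_one]
      · rcases Nat.lt_or_ge (a (φ (Sum.inl x))) (b (φ (Sum.inl x))) with h3 | h3
        · rw [Nat.choose_eq_zero_of_lt h3, Nat.cast_zero, zero_mul]
        · rw [zero_pow (by omega), mul_zero]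
    · refine prod_congr rfl fun t _ => ?_
      rw [hz]
  have hzero : ∀ a : {a // a ∈ Ex β D (range J)}, (∃ x, a.1 (φ (Sum.inl x)) ≠ b (φ (Sum.inl x))) →
      tcr (msk β (range J) fun s => q (s, 0)) a.1 b = 0 := by
    rintro a ⟨x, h⟩
    rw [htcr, prod_eq_zero (mem_univ x) (by rw [if_neg h]), zero_mul]
  by_cases hex : ∃ a : {a // a ∈ Ex β D (range J)}, ∀ x, a.1 (φ (Sum.inl x)) = b (φ (Sum.inl x))
  · obtain ⟨a₀, ha₀⟩ := hex
    have hX : J ≤ ∑ x, b (φ (Sum.inl x)) := by
      rw [← sum_congr rfl fun x _ => ha₀ x]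
      have h1 : ∀ i : Fin J, 1 ≤ ∑ r, a₀.1 (φ (Sum.inl ⟨i, r⟩)) := by
        intro i
        obtain ⟨s, hs, hs'⟩ := (mem_Ex.1 a₀.2).2 i.1 (mem_range.2 i.2)
        obtain ⟨x, rfl⟩ := φ.surjective s
        rcases x with ⟨i', r⟩ | t
        · have h2 := hβ.1 ⟨i', r⟩
          rw [hs] at h2
          have h3 : i = i' := Fin.ext h2
          subst h3
          refine le_trans (Nat.one_le_iff_ne_zero.2 hs') ?_
          exact single_le_sum (f := fun r => a₀.1 (φ (Sum.inl ⟨i, r⟩))) (fun _ _ => Nat.zero_le _)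
            (mem_univ r)
        · have h2 := hβ.2 t
          have := i.2
          omega
      rw [Fintype.sum_sigma]
      calc J = ∑ _i : Fin J, 1 := by simp
        _ ≤ _ := sum_le_sum fun i _ => h1 i
    have hbsum := sum_split φ b
    have hb0 : ∀ t, b (φ (Sum.inr t)) = 0 := by
      have h1 : ∑ t, b (φ (Sum.inr t)) = 0 := by omega
      intro t
      exact (sum_eq_zero_iff.1 h1) t (mem_univ t)
    obtain ⟨w, hw⟩ := exists_HasX hβ a₀.2 (by
      rw [sum_congr rfl fun x _ => ha₀ x]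
      omega)
    rw [← hf w, eval_Gam]
    refine sum_congr rfl fun a _ => ?_
    by_cases h : HasX φ w a.1
    · rw [if_pos h, htcr, prod_eq_one, one_mul]
      · congr 1
        refine prod_congr rfl fun t _ => ?_
        rw [hb0, Nat.choose_zero_right, Nat.cast_one, one_mul, Nat.sub_zero]
      · intro x _
        rw [if_pos]
        rw [← ha₀ x, h x, hw x]
    · rw [if_neg h, hzero a, mul_zero]
      by_contra hcon
      push Not at hcon
      apply h
      intro x
      rw [hcon x, ← ha₀ x, hw x]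
  · refine sum_eq_zero fun a _ => ?_
    rw [hzero a, mul_zero]
    by_contra hcon
    push Not at hcon
    exact hex ⟨a, hcon⟩

/-- The values. -/
theorem eval_mem (φ : Bl c J ⊕ Fin m ≃ ν) {A : Finset (ν → ℕ)} (f : {e // e ∈ A} → ℂ)
    (B : Submodule ℂ (TI c J → ℂ)) (h : ∀ α, (fun a => coeff α (Gam φ f a)) ∈ B) (z : Fin m → ℂ) :
    (fun a => eval z (Gam φ f a)) ∈ B := by
  classical
  let T : Finset (Fin m →₀ ℕ) := univ.biUnion fun a => (Gam φ f a).support
  have h1 : (fun a => eval z (Gam φ f a)) =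
      ∑ α ∈ T, (∏ i, z i ^ α i) • fun a => coeff α (Gam φ f a) := by
    funext a
    rw [eval_eq', Finset.sum_apply]
    have h2 : (Gam φ f a).support ⊆ T := subset_biUnion_of_mem (fun a => (Gam φ f a).support) (mem_univ a)
    rw [sum_subset h2]
    · refine sum_congr rfl fun α _ => ?_
      rw [Pi.smul_apply, smul_eq_mul, mul_comm]
    · intro α _ hα
      rw [notMem_support_iff.1 hα, zero_mul]
  rw [h1]
  exact B.sum_mem fun α _ => B.smul_mem _ (h α)

/-- One more point of the main kind. -/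
theorem gd_drop {φ : Bl c J ⊕ Fin m ≃ ν} {β : ν → ℕ} (hβ : IsB φ β) {d D e : ℕ} (hD : D ≤ J + e)
    {κ : Type} [Fintype κ] (rest : κ → Kd) (b : ℕ)
    (hC : Gn κ (ν × Fin (d + 1)) fun p => ∃ B : Submodule ℂ (TI c J → ℂ), finrank ℂ B = b ∧
      ∀ f ∈ (LS d D β (range J)).V rest p, ∀ α, (fun a => coeff α (Gam φ f a)) ∈ B) (N : ℕ) :
    (LS d D β (range J)).gd (Sum.elim rest fun _ : Fin N => Kd.ord e (range J)) ≤
      (LS d D β (range J)).gd (Sum.elim rest fun _ : Fin (N + 1) => Kd.ord e (range J)) + b := by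
  classical
  obtain ⟨P, hP, B, hB, hPB⟩ := ((gn_gd (LS d D β (range J))
    (Sum.elim rest fun _ : Fin (N + 1) => Kd.ord e (range J))).and
      (hC.comap (Sum.inl : κ → κ ⊕ Fin (N + 1)) Sum.inl_injective)).exists
  let P' : κ ⊕ Fin N → ν × Fin (d + 1) → ℂ := Sum.elim (fun i => P (Sum.inl i))
    fun i => P (Sum.inr i.castSucc)
  obtain ⟨V, hV⟩ : ∃ V, V = (LS d D β (range J)).V
    (Sum.elim rest fun _ : Fin N => Kd.ord e (range J)) P' := ⟨_, rfl⟩
  have hVr : V ≤ (LS d D β (range J)).V rest fun i => P (Sum.inl i) := by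
    rw [hV]
    intro f hf
    rw [Sys.mem_V] at hf ⊢
    exact fun i => hf (Sum.inl i)
  let z : Fin m → ℂ := fun t => P (Sum.inr (Fin.last N)) (φ (Sum.inr t), 0)
  let L : V →ₗ[ℂ] B := 
    { toFun := fun f => ⟨fun a => eval z (Gam φ f.1 a),
        eval_mem φ f.1 B (fun α => hPB f.1 (hVr f.2) α) z⟩
      map_add' := by
        intro f g
        apply Subtype.ext
        funext a
        show eval z (Gam φ (f.1 + g.1) a) = eval z (Gam φ f.1 a) + eval z (Gam φ g.1 a)
        rw [map_add, Pi.add_apply, map_add]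
      map_smul' := by
        intro x f
        apply Subtype.ext
        funext a
        show eval z (Gam φ (x • f.1) a) = x * eval z (Gam φ f.1 a)
        rw [map_smul, Pi.smul_apply, smul_eval] }
  have h1 := LinearMap.finrank_range_add_finrank_ker L
  have h2 : finrank ℂ (LinearMap.range L) ≤ b := (Submodule.finrank_le _).trans_eq hB
  have h3 : finrank ℂ (LinearMap.ker L) ≤ finrank ℂ ((LS d D β (range J)).V
      (Sum.elim rest fun _ : Fin (N + 1) => Kd.ord e (range J)) P) := by
    rw [← Submodule.finrank_map_subtype_eq]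
    refine Submodule.finrank_mono ?_
    rintro _ ⟨f, hf, rfl⟩
    have hf0 : ∀ a, eval z (Gam φ f.1 a) = 0 := fun a =>
      congrFun (congrArg Subtype.val (LinearMap.mem_ker.1 hf)) a
    have hfm := main_mem hβ hD (P (Sum.inr (Fin.last N))) f.1 hf0
    have hfV : f.1 ∈ (LS d D β (range J)).V
        (Sum.elim rest fun _ : Fin N => Kd.ord e (range J)) P' := hV ▸ f.2
    show f.1 ∈ _
    rw [Sys.mem_V] at hfm hfV ⊢
    rintro (i | i)
    · exact hfV (Sum.inl i)
    · refine Fin.lastCases ?_ (fun i => ?_) i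
      · exact hfm ()
      · exact hfV (Sum.inr i)
  have h4 := gd_le (LS d D β (range J)) (Sum.elim rest fun _ : Fin N => Kd.ord e (range J)) P'
  rw [← hV] at h4
  rw [hP] at h3
  omega

/-- Several points of the main kind. -/
theorem gd_drops {φ : Bl c J ⊕ Fin m ≃ ν} {β : ν → ℕ} (hβ : IsB φ β) {d D e : ℕ} (hD : D ≤ J + e)
    {κ : Type} [Fintype κ] (rest : κ → Kd) (b : ℕ)
    (hC : Gn κ (ν × Fin (d + 1)) fun p => ∃ B : Submodule ℂ (TI c J → ℂ), finrank ℂ B = b ∧
      ∀ f ∈ (LS d D β (range J)).V rest p, ∀ α, (fun a => coeff α (Gam φ f a)) ∈ B) (N k : ℕ) :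
    (LS d D β (range J)).gd (Sum.elim rest fun _ : Fin N => Kd.ord e (range J)) ≤
      (LS d D β (range J)).gd (Sum.elim rest fun _ : Fin (N + k) => Kd.ord e (range J)) + k * b := by
  induction k with
  | zero => simp
  | succ k ih =>
    have h1 := gd_drop hβ hD rest b hC (N + k)
    have h2 : N + (k + 1) = N + k + 1 := by ring
    rw [h2]
    have h3 : (k + 1) * b = k * b + b := by ring
    omega

end Pool.Agent.GD.Top
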