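import Pool.Agent.GD.Top.Stmt
import Pool.Agent.GD.Top.Lead
import Pool.Agent.GD.Top.Drop
import Pool.Agent.V7.Top.Prop

/-!
# GD, TOP: exactness on the last level
-/

set_option autoImplicit false
set_option linter.unusedSectionVars false

namespace Pool.Agent.GD

open Finset Module MvPolynomial Pool.Agent.H51.TB Pool.Agent.V7.ST Topology
open Pool.Agent.GD.Top (Bl TI Gam IsB SF posz)

/-! ### The standard blocks if only the first `J` sizes are positive -/

theorem bidx_eq' {c : ℕ → ℕ} {J : ℕ} (hc : ∀ i < J, 1 ≤ c i) (i x : ℕ) (hi : i < J) (hx : x < c i) :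
    bidx c (∑ j ∈ range i, c j + x) = i := by
  have hle : ∀ k ≤ J, k ≤ ∑ j ∈ range k, c j := by
    intro k hk
    calc k = ∑ _j ∈ range k, 1 := by simp
      _ ≤ _ := sum_le_sum fun j hj => hc j (by have := mem_range.1 hj; omega)
  have hmono : ∀ a b, a ≤ b → ∑ j ∈ range a, c j ≤ ∑ j ∈ range b, c j := fun a b hab =>
    sum_le_sum_of_subset (range_mono hab)
  have h1 : (range (∑ j ∈ range i, c j + x + 1)).filter
      (fun k => ∑ j ∈ range (k + 1), c j ≤ ∑ j ∈ range i, c j + x) = range i := by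
    ext k
    rw [mem_filter, mem_range, mem_range]
    constructor
    · rintro ⟨-, h⟩
      by_contra hcon
      push Not at hcon
      have h2 := hmono (i + 1) (k + 1) (by omega)
      rw [sum_range_succ] at h2
      omega
    · intro h
      refine ⟨?_, ?_⟩
      · have := hle i hi.le
        omega
      · have := hmono (k + 1) i (by omega)
        omega
  unfold bidx
  rw [h1, card_range]

theorem le_bidx' {c : ℕ → ℕ} {J : ℕ} (hc : ∀ i < J, 1 ≤ c i) (s : ℕ) (hs : ∑ j ∈ range J, c j ≤ s) :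
    J ≤ bidx c s := by
  unfold bidx
  rw [← card_range J]
  refine card_le_card fun k hk => ?_
  rw [mem_range] at hk
  rw [mem_filter, mem_range]
  have h1 : ∑ j ∈ range (k + 1), c j ≤ ∑ j ∈ range J, c j :=
    sum_le_sum_of_subset (range_mono (by omega))
  have h2 : J ≤ ∑ j ∈ range J, c j := by
    calc J = ∑ _j ∈ range J, 1 := by simp
      _ ≤ _ := sum_le_sum fun j hj => hc j (mem_range.1 hj)
  exact ⟨by omega, by omega⟩

theorem isB_phn' (c : ℕ → ℕ) (J n : ℕ) (hc : ∀ i < J, 1 ≤ c i) (h : ∑ i ∈ range J, c i ≤ n) :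
    IsB (Pool.Agent.GD.Top.phn c J n h) (blk c n) := by
  constructor
  · intro x
    show bidx c (Pool.Agent.GD.Top.phn c J n h (Sum.inl x)).1 = x.1
    rw [Pool.Agent.GD.Top.phn_inl]
    exact bidx_eq' hc x.1 x.2 x.1.2 x.2.2
  · intro t
    show J ≤ bidx c (Pool.Agent.GD.Top.phn c J n h (Sum.inr t)).1
    rw [Pool.Agent.GD.Top.phn_inr]
    exact le_bidx' hc _ (by omega)

/-! ### Removing the points of the main kind -/

theorem npt_add (ms ms' : Multiset Kd) (x : ℕ) (A : Finset ℕ) :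
    npt (ms + ms') x A = npt ms x A + npt ms' x A := by
  unfold npt
  rw [Multiset.add_bind, Multiset.count_add]

theorem npt_replicate (N e : ℕ) (B : Finset ℕ) (x : ℕ) (A : Finset ℕ) :
    npt (Multiset.replicate N (Kd.ord e B)) x A = if x = e ∧ A = B then N else 0 := by
  induction N with
  | zero =>
    rw [Multiset.replicate_zero]
    unfold npt
    simp
  | succ N ih =>
    rw [Multiset.replicate_succ, npt_cons, ih]
    have h3 : (Kd.ord e B).pts = {(e, B)} := rfl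
    rw [h3, Multiset.count_singleton]
    by_cases h : x = e ∧ A = B
    · rw [if_pos h, if_pos h, if_pos (by rw [h.1, h.2]), add_comm]
    · rw [if_neg h, if_neg h, if_neg]
      intro h'
      exact h (Prod.mk.injEq _ _ _ _ ▸ h')

/-- The configuration without the points of the main kind. -/
theorem Cls.strip {P : Par} {j n : ℕ} {ms : Multiset Kd} (h : Cls P j n ms) :
    ∃ a : Multiset Kd, ms = a + Multiset.replicate (ms.count (P.u j)) (P.u j) ∧ a.count (P.u j) = 0 ∧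
      Cls P j n a := by
  classical
  obtain ⟨a, ha⟩ : ∃ a, a = ms.filter fun k => ¬ k = P.u j := ⟨_, rfl⟩
  have h1 : ms = a + Multiset.replicate (ms.count (P.u j)) (P.u j) := by
    rw [ha, ← Multiset.filter_eq', add_comm]
    exact (Multiset.filter_add_not _ ms).symm
  have h2 : a.count (P.u j) = 0 := by
    rw [ha, Multiset.count_eq_zero]
    intro h
    exact (Multiset.mem_filter.1 h).2 rfl
  have hnpt : ∀ x A, (x ≠ P.e ∨ A ≠ range j) → npt ms x A = npt a x A := by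
    intro x A hxA
    rw [h1, npt_add, npt_replicate, if_neg, add_zero]
    rintro ⟨h3, h4⟩
    rcases hxA with h5 | h5
    · exact h5 h3
    · exact h5 h4
  have hle : a ≤ ms := by
    rw [ha]
    exact Multiset.filter_le _ _
  refine ⟨a, h1, h2, ⟨fun k hk => h.mem k (Multiset.mem_of_le hle hk), ?_, ?_, ?_⟩⟩
  · intro x A hx hxd hA hK hxA
    rw [← hnpt x A hxA]
    exact h.win x A hx hxd hA hK hxA
  · intro x A hx hxd hA hK
    have h3 : A ≠ range j := by
      rintro rfl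
      rw [sdiff_self, bot_eq_empty, card_empty] at hK
      omega
    rw [← hnpt x A (Or.inr h3)]
    exact h.zero x A hx hxd hA hK
  · intro i hi τ hτ
    exact (Multiset.count_le_of_le _ hle).trans (h.cnt i hi τ hτ)

/-! ### The numbers -/

/-- The number of the values is bounded, the virtual dimension is large. -/
theorem num_J {e : ℕ} (he : 2 ≤ e) (C : ℕ) {η δ : ℝ} (hη : 0 < η) (hδ : 0 < δ) (hδ1 : δ ≤ 1) :
    ∃ n₀ : ℕ, 1 ≤ n₀ ∧ ∀ n : ℕ, n₀ ≤ n → ∀ (b : ℕ) (v : ℝ), 1 ≤ b → b ≤ C → η * (n : ℝ) ^ e ≤ v →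
      ∃ N₀ : ℕ, (2 * C) * (2 * n) ^ (e - 1) < N₀ ∧ (1 - δ) * (v / b) + C < N₀ ∧
        ((N₀ + 1 : ℕ) : ℝ) * b ≤ v := by
  obtain ⟨n₂, hn₂⟩ := exists_nat_ge (2 * ((2 : ℝ) ^ e * C + 1 + (C + 2)) * C / (η * δ))
  refine ⟨n₂ + 1, by omega, fun n hn b v hb hbC hv => ?_⟩
  have hn1 : (1 : ℝ) ≤ n := by
    have : 1 ≤ n := by omega
    exact_mod_cast this
  have hnn : (n₂ : ℝ) < n := by
    have : n₂ < n := by omega
    exact_mod_cast this
  have hb' : (1 : ℝ) ≤ b := by exact_mod_cast hb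
  have hbC' : (b : ℝ) ≤ C := by exact_mod_cast hbC
  have hC1 : (1 : ℝ) ≤ C := hb'.trans hbC'
  have hηδ : 0 < η * δ := mul_pos hη hδ
  set K : ℝ := (2 : ℝ) ^ e * C + 1 + (C + 2) with hK
  have hK0 : 0 < K := by positivity
  have h1 : 2 * K * C < n * (η * δ) := by
    rw [← div_lt_iff₀ hηδ]
    exact lt_of_le_of_lt hn₂ hnn
  -- `v / b` is large
  have hpow : (n : ℝ) ^ e = n * (n : ℝ) ^ (e - 1) := by
    rw [← pow_succ']
    congr 1
    omega
  have hpow1 : (1 : ℝ) ≤ (n : ℝ) ^ (e - 1) := one_le_pow₀ hn1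
  have h2 : 2 * K * (n : ℝ) ^ (e - 1) < δ * (v / b) := by
    have h3 : η * (n : ℝ) ^ e / C ≤ v / b := by
      rw [div_le_div_iff₀ (by linarith) (by linarith)]
      have h4 : 0 ≤ η * (n : ℝ) ^ e := by positivity
      nlinarith
    have h5 : 2 * K * (n : ℝ) ^ (e - 1) < δ * (η * (n : ℝ) ^ e / C) := by
      rw [hpow, ← mul_div_assoc, lt_div_iff₀ (by linarith)]
      have h6 : 0 < (n : ℝ) ^ (e - 1) := by linarith
      nlinarith
    have h7 : δ * (η * (n : ℝ) ^ e / C) ≤ δ * (v / b) := mul_le_mul_of_nonneg_left h3 hδ.le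
    linarith
  have hvb : 0 < v / b := by
    have h3 : 0 < 2 * K * (n : ℝ) ^ (e - 1) := by positivity
    by_contra hcon
    push Not at hcon
    nlinarith
  have hY : 0 ≤ (1 - δ / 2) * (v / b) := mul_nonneg (by linarith) hvb.le
  have hf1 := Nat.floor_le hY
  have hf2 := Nat.lt_floor_add_one ((1 - δ / 2) * (v / b))
  have hK1 : K ≤ K * (n : ℝ) ^ (e - 1) := le_mul_of_one_le_right hK0.le hpow1
  have hKC : (C : ℝ) + 2 ≤ K := by
    rw [hK]
    have : 0 ≤ (2 : ℝ) ^ e * C := by positivity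
    linarith
  refine ⟨⌊(1 - δ / 2) * (v / b)⌋₊, ?_, ?_, ?_⟩
  · have h : (((2 * C) * (2 * n) ^ (e - 1) : ℕ) : ℝ) < (⌊(1 - δ / 2) * (v / b)⌋₊ : ℝ) := by
      push_cast
      have h4 : 2 * (C : ℝ) * (2 * n) ^ (e - 1) = (2 : ℝ) ^ e * C * (n : ℝ) ^ (e - 1) := by
        rw [mul_pow]
        have h5 : (2 : ℝ) ^ e = 2 * 2 ^ (e - 1) := by
          rw [← pow_succ']
          congr 1
          omega
        rw [h5]
        ring
      rw [h4]
      have h5 : δ * (v / b) ≤ v / b := by nlinarith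
      have h6 : (1 : ℝ) / 2 * (v / b) ≤ (1 - δ / 2) * (v / b) := by
        apply mul_le_mul_of_nonneg_right _ hvb.le
        linarith
      have h7 : (2 : ℝ) ^ e * C * (n : ℝ) ^ (e - 1) + (n : ℝ) ^ (e - 1) ≤ K * (n : ℝ) ^ (e - 1) := by
        rw [hK]
        have h8 : 0 ≤ (C + 2 : ℝ) * (n : ℝ) ^ (e - 1) := by positivity
        nlinarith
      linarith
    exact_mod_cast h
  · nlinarith
  · push_cast
    have h3 : ((⌊(1 - δ / 2) * (v / b)⌋₊ : ℝ) + 1) ≤ v / b := by nlinarith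
    calc ((⌊(1 - δ / 2) * (v / b)⌋₊ : ℝ) + 1) * b ≤ v / b * b :=
          mul_le_mul_of_nonneg_right h3 (by linarith)
      _ = v := div_mul_cancel₀ v (by linarith : (b : ℝ) ≠ 0)

theorem finrank_TI (c : ℕ → ℕ) (J : ℕ) : finrank ℂ (TI c J → ℂ) = ∏ i ∈ range J, c i := by
  rw [finrank_fintype_fun_eq_card, Fintype.card_pi]
  simp only [Fintype.card_fin]
  exact Fin.prod_univ_eq_prod_range c J

/-- The virtual dimension without the points of the main kind. -/
def POSE (P : Par) (η : ℝ) : Prop := ∃ n₀ : ℕ, ∀ n, n₀ ≤ n → ∀ ms, Cls P P.J n ms →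
  ms.count (P.u P.J) = 0 →
    η * P.cc (range P.J) * (n : ℝ) ^ P.e ≤ (P.v P.J n ms : ℝ) ∧ 1 ≤ vd P.J (range P.J) P.c n ms

/-- **TOP.** Exactness on the last level. -/
theorem propJ_core (P : Par) (he : 2 ≤ P.e) (hlt : P.e < P.d) (hk : 0 ≤ P.kap P.e)
    (hc : ∀ i < P.J, 1 ≤ P.c i) {η : ℝ} (hη : 0 < η)
    (hS : SUB P P.J η 0) (hB : BETJ P) (hG : GAMJ P) (hC : CVJ P) (hV : POSE P η) :
    PROP P P.J := by
  classical
  have hdJ : P.d = P.e + P.J := by
    unfold Par.J
    omega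
  have hdJe : P.d - P.J = P.e := by omega
  obtain ⟨nV, hV⟩ := hV
  obtain ⟨δ, hδ, nB, hB⟩ := hB
  obtain ⟨nG, hG⟩ := hG
  obtain ⟨nC, hC⟩ := hC
  have hδ' : 0 < min δ 1 := lt_min hδ one_pos
  have hccN : 1 ≤ P.cc (range P.J) := by
    unfold Par.cc
    exact Nat.one_le_iff_ne_zero.2 (prod_ne_zero_iff.2 fun i hi => by
      have := hc i (mem_range.1 hi)
      omega)
  have hcc : (1 : ℝ) ≤ P.cc (range P.J) := by exact_mod_cast hccN
  have hη₁ : 0 < η * P.cc (range P.J) := by positivity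
  obtain ⟨nS, hS⟩ := hS
  obtain ⟨n₀, hn₀1, hnum⟩ := num_J he (P.cc (range P.J)) hη₁ hδ' (min_le_right δ 1)
  refine ⟨n₀ + nV + nB + nG + nC + nS + ∑ i ∈ range P.J, P.c i + P.d, fun n hn ms hms => ?_⟩
  obtain ⟨a, hma, ha0, hcls⟩ := hms.strip
  set N := ms.count (P.u P.J) with hN
  have hcn : ∑ i ∈ range P.J, P.c i ≤ n := by omega
  have hlead := hcls.lead he le_rfl hc hcn
  obtain ⟨hv1, hb1⟩ := hV n (by omega) a hcls ha0
  have hv : P.v P.J n ms = P.v P.J n a - N * P.b n a := by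
    unfold Par.v Par.b
    conv_lhs => rw [hma]
    exact vd_replicate hc (by omega) hdJ hlead N
  have hnp : (0 : ℝ) ≤ (n : ℝ) ^ P.e := by positivity
  have hHa : (P.H P.J n a : ℤ) ≤ P.v P.J n a := by
    refine hS n (by omega) a hcls ?_ ?_
    · rw [ha0, Nat.cast_zero, add_zero]
      exact mul_nonneg hk hnp
    · rw [hdJe]
      exact hv1
  obtain ⟨b, hb⟩ : ∃ b : ℕ, (b : ℤ) = P.b n a :=
    ⟨(P.b n a).toNat, Int.toNat_of_nonneg (le_trans (by norm_num) hb1)⟩
  have hbR : (b : ℝ) = P.b n a := by exact_mod_cast hb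
  obtain ⟨rest, hrest, hgd⟩ := exists_conf (LS P.d P.d (blk P.c n) (range P.J)) a
  have hφ := isB_phn' P.c P.J n hc hcn
  obtain ⟨p₁, hp₁⟩ := hB n (by omega) _ (Top.phn P.c P.J n hcn) hφ a hcls ha0 _ rest hrest
  have hCr := hC n (by omega) _ (Top.phn P.c P.J n hcn) hφ a hcls ha0 _ rest hrest
  have hg := (hG n (by omega) _ (Top.phn P.c P.J n hcn) hφ a hcls ha0 _ rest hrest).and
    (hCr.and (gn_gd (LS P.d P.d (blk P.c n) (range P.J)) rest))
  obtain ⟨p, hp, hpG, ⟨B, hBb, hpB⟩, hpd⟩ := Pool.Agent.V7.BE.Gn.near hg p₁ _ hp₁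
  have hBf : finrank ℂ B = b := by
    have : (finrank ℂ B : ℤ) = (b : ℤ) := by rw [hBb, hb]
    exact_mod_cast this
  have hbC : b ≤ P.cc (range P.J) := by
    rw [← hBf]
    refine (Submodule.finrank_le B).trans ?_
    rw [finrank_TI]
    exact le_rfl
  have hb1N : 1 ≤ b := by
    have : (1 : ℤ) ≤ (b : ℤ) := by rw [hb]; exact hb1
    exact_mod_cast this
  obtain ⟨N₀, hN1, hN2, hN3⟩ := hnum n (by omega) b (P.v P.J n a) hb1N hbC hv1
  have hv0 : (0 : ℝ) ≤ P.v P.J n a := le_trans (by positivity) hv1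
  have hb0 : (0 : ℝ) < b := by
    have : (1 : ℝ) ≤ b := by exact_mod_cast hb1N
    linarith
  have key := Top.top_rel (Top.phn P.c P.J n hcn) (LS P.d P.d (blk P.c n) (range P.J)) rest (P.u P.J)
    (M := P.e) (fun f x => by
      have h1 := Top.Gam_hom (Top.phn P.c P.J n hcn) (blk P.c n) (range P.J) f x
      rwa [hdJe] at h1)
    (posz P.d (Top.phn P.c P.J n hcn))
    (fun z f hf x => Top.htop hφ (by omega) z f hf x) p B hpB hpG N₀
    (Pool.Agent.V7.top_h1 (by omega) (Nat.sub_le _ _) (by omega) (lt_of_le_of_lt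
      (Nat.mul_le_mul_right _ (by omega : 2 * finrank ℂ B - 2 ≤ 2 * P.cc (range P.J))) hN1)) (by
      intro F hFB hF hF'
      have hlt : finrank ℂ F < finrank ℂ B :=
        Submodule.finrank_lt_finrank_of_lt (lt_of_le_of_ne hFB hF')
      have h4 := hp F hF (by rw [← hb]; exact_mod_cast (by omega : finrank ℂ F < b))
      rw [← hbR] at h4
      have hf : 1 ≤ finrank ℂ F := Nat.one_le_iff_ne_zero.2 fun h => hF (Submodule.finrank_eq_zero.1 h)
      have hf' : (1 : ℝ) ≤ finrank ℂ F := by exact_mod_cast hf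
      have h5 : ((finrank ℂ F * (finrank ℂ B - finrank ℂ F) : ℕ) : ℝ) ≤
          finrank ℂ F * (P.cc (range P.J) : ℝ) := by
        have : finrank ℂ F * (finrank ℂ B - finrank ℂ F) ≤ finrank ℂ F * P.cc (range P.J) :=
          Nat.mul_le_mul_left _ (by omega)
        exact_mod_cast this
      have h6 : (1 - δ) * (finrank ℂ F : ℝ) * P.v P.J n a ≤
          (1 - min δ 1) * (finrank ℂ F : ℝ) * P.v P.J n a := by
        apply mul_le_mul_of_nonneg_right _ hv0
        apply mul_le_mul_of_nonneg_right _ (by linarith)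
        have := min_le_left δ 1
        linarith
      have h6' : (finrank ℂ (SF (Top.phn P.c P.J n hcn)
          ((LS P.d P.d (blk P.c n) (range P.J)).V rest p) F) : ℝ) ≤
          finrank ℂ F * ((1 - min δ 1) * (P.v P.J n a / b)) := by
        have h7 : (finrank ℂ F : ℝ) * ((1 - min δ 1) * (P.v P.J n a / b)) =
            (1 - min δ 1) * (finrank ℂ F : ℝ) * P.v P.J n a / b := by ring
        rw [h7, le_div_iff₀ hb0]
        exact h4.trans h6
      have h7 : (finrank ℂ F : ℝ) * ((1 - min δ 1) * (P.v P.J n a / b) + (P.cc (range P.J) : ℝ)) <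
          finrank ℂ F * N₀ := mul_lt_mul_of_pos_left hN2 (by linarith)
      have h8 : ((finrank ℂ (SF (Top.phn P.c P.J n hcn)
          ((LS P.d P.d (blk P.c n) (range P.J)).V rest p) F) +
          finrank ℂ F * (finrank ℂ B - finrank ℂ F) : ℕ) : ℝ) < ((finrank ℂ F * N₀ : ℕ) : ℝ) := by
        rw [Nat.cast_add, Nat.cast_mul (finrank ℂ F) N₀]
        nlinarith
      exact_mod_cast h8)
  have hH : P.H P.J n a = finrank ℂ ((LS P.d P.d (blk P.c n) (range P.J)).V rest p) := by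
    rw [hpd, hgd]
    rfl
  -- large numbers
  have hbig : ∀ N, N₀ + 1 ≤ N → (((LS P.d P.d (blk P.c n) (range P.J)).gd
      (Sum.elim rest fun _ : Fin N => P.u P.J) : ℕ) : ℤ) ≤ max 0 (P.v P.J n a - N * b) := by
    intro N hN
    have h1 := key N hN
    rw [← hH, hBf] at h1
    have h9 : (((LS P.d P.d (blk P.c n) (range P.J)).gd
        (Sum.elim rest fun _ : Fin N => P.u P.J) : ℕ) : ℤ) ≤
        max 0 ((P.H P.J n a : ℤ) - (b * N : ℕ)) := by
      omega
    refine h9.trans (max_le_max le_rfl ?_)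
    push_cast
    linarith
  have hgs : P.H P.J n ms = (LS P.d P.d (blk P.c n) (range P.J)).gd
      (Sum.elim rest fun _ : Fin N => P.u P.J) := by
    unfold Par.H HL HI
    rw [gd_eq_gM, map_elim, hrest, Pool.Agent.V7.ST.map_const, Fintype.card_fin, ← hma]
  rw [hgs, hv, ← hb]
  rcases le_or_gt (N₀ + 1) N with hcase | hcase
  · exact hbig N hcase
  -- small numbers
  obtain ⟨k, hk⟩ : ∃ k, N₀ + 1 = N + k := ⟨N₀ + 1 - N, by omega⟩
  have h1 := Top.gd_drops hφ (by omega : P.d ≤ P.J + P.e) rest b (hCr.mono fun p hp => by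
    obtain ⟨B, h1, h2⟩ := hp
    exact ⟨B, by exact_mod_cast (h1.trans hb.symm), h2⟩) N k
  have h2 := hbig (N₀ + 1) le_rfl
  rw [hk] at h2 hN3
  have h3 : (0 : ℤ) ≤ P.v P.J n a - (N + k : ℕ) * b := by
    have h4 : (((N + k : ℕ) * b : ℤ) : ℝ) ≤ (P.v P.J n a : ℝ) := by
      push_cast
      push_cast at hN3
      linarith
    have h5 : (((N + k : ℕ) : ℤ) * b) ≤ P.v P.J n a := by exact_mod_cast h4
    linarith
  rw [max_eq_right h3] at h2
  refine le_trans ?_ (le_max_right _ _)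
  have h6 : (((LS P.d P.d (blk P.c n) (range P.J)).gd
      (Sum.elim rest fun _ : Fin N => P.u P.J) : ℕ) : ℤ) ≤
      (((LS P.d P.d (blk P.c n) (range P.J)).gd
        (Sum.elim rest fun _ : Fin (N + k) => P.u P.J) : ℕ) : ℤ) + k * b := by
    exact_mod_cast h1
  push_cast at h2 h6 ⊢
  linarith

end Pool.Agent.GD
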