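import Pool.Agent.GD.Top.Box
import Pool.Agent.GD.BE.Bet
import Pool.Agent.GD.GA.Fin
import Pool.Agent.GD.N.Cost

/-!
# GD: the target of the blocks BETA, GAMMA, TOP
-/

set_option autoImplicit false

namespace Pool.Agent.GD

theorem targetPos : TargetPos := by
  intro d e kap hk
  obtain ⟨η, E, hη, hE, h⟩ := posJ d e kap hk
  refine ⟨η, E, hη, hE, fun P hd he hkp hOk hc => ?_⟩
  subst he
  exact h P hd rfl hkp hOk hc

theorem targetTop : TargetTop :=
  targetTop_of Pool.Agent.GD.BE.targetBet GA.targetGam targetCv targetPos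

end Pool.Agent.GD
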