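import Pool.Agent.GD.Cls
import Pool.Agent.GD.ExF

/-!
# GD, TOP: the virtual dimensions in small degrees

`lead`: for the configurations of the classes `vd D I = 0` for `D < |I|`, and `vd |I| I` is the number of the
partial partitions (`FF`).  `v_replicate`: the effect of the points of the main kind on the last level.
-/

set_option autoImplicit false

namespace Pool.Agent.GD

open Finset

/-! ### Powers of `1 / (1 - X)` -/

theorem hs_succ (N : ℕ) : (1 - PowerSeries.X) * hs (N + 1) = hs N := by
  ext k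
  rw [sub_mul, one_mul, map_sub]
  unfold hs
  rcases k with - | k
  · rw [PowerSeries.coeff_mk, PowerSeries.coeff_zero_X_mul, PowerSeries.coeff_mk]
    simp
  · rw [PowerSeries.coeff_mk, PowerSeries.coeff_succ_X_mul, PowerSeries.coeff_mk, PowerSeries.coeff_mk,
      Nat.multichoose_succ_succ]
    push_cast
    ring

theorem hs_zero : hs 0 = 1 := by
  ext k
  unfold hs
  rw [PowerSeries.coeff_mk, PowerSeries.coeff_one]
  rcases k with - | k
  · simp
  · simp

theorem hs_pow (N : ℕ) : (1 - PowerSeries.X) ^ N * hs N = 1 := by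
  induction N with
  | zero => rw [pow_zero, one_mul, hs_zero]
  | succ N ih => rw [pow_succ, mul_assoc, hs_succ, ih]

theorem hs_add (a b : ℕ) : hs (a + b) = hs a * hs b := by
  have h1 := hs_pow a
  have h2 := hs_pow b
  have h3 := hs_pow (a + b)
  rw [pow_add] at h3
  calc hs (a + b) = ((1 - PowerSeries.X) ^ a * hs a) * ((1 - PowerSeries.X) ^ b * hs b) * hs (a + b) := by
        rw [h1, h2, one_mul, one_mul]
    _ = (hs a * hs b) * ((1 - PowerSeries.X) ^ a * (1 - PowerSeries.X) ^ b * hs (a + b)) := by ring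
    _ = hs a * hs b := by rw [h3, mul_one]

theorem hs_sum (c : ℕ → ℕ) (s : Finset ℕ) : hs (∑ i ∈ s, c i) = ∏ i ∈ s, hs (c i) := by
  classical
  induction s using Finset.induction_on with
  | empty => rw [sum_empty, prod_empty, hs_zero]
  | insert i s hi ih => rw [sum_insert hi, prod_insert hi, hs_add, ih]

theorem hs_sub_one (N : ℕ) : hs N - 1 =
    PowerSeries.X * PowerSeries.mk fun k => (Nat.multichoose N (k + 1) : ℤ) := by
  ext k
  rcases k with - | k
  · unfold hs
    simp
  · rw [map_sub, PowerSeries.coeff_succ_X_mul, PowerSeries.coeff_mk]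
    unfold hs
    rw [PowerSeries.coeff_mk, PowerSeries.coeff_one, if_neg (Nat.succ_ne_zero k), sub_zero]

/-! ### Alternating sums -/

/-- The alternating sum of the coefficients. -/
noncomputable def mob (A : Finset ℕ → PowerSeries ℤ) (D : ℕ) (I : Finset ℕ) : ℤ :=
  ∑ I' ∈ I.powerset, (-1) ^ I'.card * PowerSeries.coeff D (A I')

theorem vd_eq_mob (D : ℕ) (I : Finset ℕ) (c : ℕ → ℕ) (n : ℕ) (ms : Multiset Kd) : vd D I c n ms =
    mob (fun I' => (ms.map (Kd.P I')).prod * hs (n - ∑ i ∈ I', c i)) D I := rfl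

theorem mob_congr {A B : Finset ℕ → PowerSeries ℤ} {D : ℕ} {I : Finset ℕ} (h : ∀ I' ⊆ I, A I' = B I') :
    mob A D I = mob B D I := by
  unfold mob
  refine sum_congr rfl fun I' hI' => ?_
  rw [h I' (mem_powerset.1 hI')]

theorem mob_ord (A : Finset ℕ → PowerSeries ℤ) (S : Finset ℕ) (x D : ℕ) (I : Finset ℕ) :
    mob (fun I' => (if I' ⊆ S then 1 - PowerSeries.X ^ x else 1) * A I') D I =
      mob A D I - if x ≤ D then mob A (D - x) (I ∩ S) else 0 := by
  classical
  have h1 : ∀ I' : Finset ℕ, PowerSeries.coeff D ((if I' ⊆ S then 1 - PowerSeries.X ^ x else 1) * A I') =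
      PowerSeries.coeff D (A I') - if I' ⊆ S then
        (if x ≤ D then PowerSeries.coeff (D - x) (A I') else 0) else 0 := by
    intro I'
    split_ifs with h h'
    · rw [sub_mul, one_mul, map_sub, PowerSeries.coeff_X_pow_mul', if_pos h']
    · rw [sub_mul, one_mul, map_sub, PowerSeries.coeff_X_pow_mul', if_neg h']
    · rw [one_mul, sub_zero]
  unfold mob
  simp only [h1, mul_sub, sum_sub_distrib]
  congr 1
  have h2 : (I ∩ S).powerset = I.powerset.filter fun I' => I' ⊆ S := by
    ext I'
    rw [mem_filter, mem_powerset, mem_powerset, subset_inter_iff]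
  rw [h2]
  split_ifs with h
  · rw [sum_filter]
    refine sum_congr rfl fun I' _ => ?_
    split_ifs
    · rfl
    · rw [mul_zero]
  · refine sum_eq_zero fun I' _ => ?_
    split_ifs <;> rw [mul_zero]

theorem vd_ord (D : ℕ) (I : Finset ℕ) (c : ℕ → ℕ) (n x : ℕ) (S : Finset ℕ) (ms : Multiset Kd) :
    vd D I c n (Kd.ord x S ::ₘ ms) =
      vd D I c n ms - if x ≤ D then vd (D - x) (I ∩ S) c n ms else 0 := by
  rw [vd_eq_mob, vd_eq_mob, vd_eq_mob, ← mob_ord]
  refine mob_congr fun I' _ => ?_
  rw [Multiset.map_cons, Multiset.prod_cons, mul_assoc]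
  rfl

/-- The factor of a set. -/
theorem mob_in (A : Finset ℕ → PowerSeries ℤ) (D : ℕ) {I : Finset ℕ} {i : ℕ} (hi : i ∉ I) :
    ∑ I' ∈ (insert i I).powerset, (if i ∈ I' then (-1) ^ I'.card * PowerSeries.coeff D (A I') else 0) =
      mob A D (insert i I) - mob A D I := by
  classical
  unfold mob
  rw [eq_sub_iff_add_eq, ← sum_filter]
  have h2 : I.powerset = (insert i I).powerset.filter fun I' => i ∉ I' := by
    ext I'
    rw [mem_filter, mem_powerset, mem_powerset]
    constructor
    · intro h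
      exact ⟨h.trans (subset_insert _ _), fun h' => hi (h h')⟩
    · rintro ⟨h1, h2⟩
      exact (subset_insert_iff_of_notMem h2).1 h1
  rw [h2]
  exact sum_filter_add_sum_filter_not _ _ _

theorem vd_zero_ms {I : Finset ℕ} (D : ℕ) (c : ℕ → ℕ) (n : ℕ) (hn : ∑ i ∈ I, c i ≤ n) :
    vd D I c n 0 = PowerSeries.coeff D (hs (n - ∑ i ∈ I, c i) * ∏ i ∈ I, (hs (c i) - 1)) := by
  classical
  have h1 : ∏ i ∈ I, (hs (c i) - 1) = ∑ I' ∈ I.powerset, (-1) ^ I'.card * ∏ i ∈ I \ I', hs (c i) := by
    have h2 : ∀ i ∈ I, hs (c i) - 1 = (-1) + hs (c i) := fun i _ => by ring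
    rw [prod_congr rfl h2, prod_add]
    refine sum_congr rfl fun I' _ => ?_
    rw [prod_const]
  rw [h1, mul_sum, map_sum]
  unfold vd
  refine sum_congr rfl fun I' hI' => ?_
  have hsub := mem_powerset.1 hI'
  have h3 : n - ∑ i ∈ I', c i = (n - ∑ i ∈ I, c i) + ∑ i ∈ I \ I', c i := by
    have := sum_sdiff (f := c) hsub
    omega
  rw [Multiset.map_zero, Multiset.prod_zero, one_mul, h3, hs_add, hs_sum, mul_left_comm]
  rcases Nat.even_or_odd I'.card with h | h
  · rw [h.neg_one_pow, h.neg_one_pow, one_mul, one_mul]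
  · rw [h.neg_one_pow, h.neg_one_pow, neg_one_mul, neg_one_mul, map_neg]

/-! ### The leading terms -/

/-- The densities of the points of `W`-degree `0`. -/
noncomputable def dnS (c : ℕ → ℕ) (J : ℕ) (ms : Multiset Kd) (S : Finset ℕ) : ℚ :=
  (npt ms S.card (range J \ S) : ℚ) / ∏ i ∈ S, (c i : ℚ)

/-- The leading terms. -/
def Lead (c : ℕ → ℕ) (J n : ℕ) (ms : Multiset Kd) : Prop := ∀ I ⊆ range J,
  (∀ D < I.card, vd D I c n ms = 0) ∧
    (vd I.card I c n ms : ℚ) = (∏ i ∈ I, (c i : ℚ)) * FF (dnS c J ms) I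

theorem FF_congr' {ι : Type} [DecidableEq ι] {κ κ' : Finset ι → ℚ} {J : Finset ι}
    (h : ∀ S ⊆ J, S ≠ ∅ → κ S = κ' S) : FF κ J = FF κ' J := by
  unfold FF
  refine Finset.sum_congr rfl fun P hP => Finset.prod_congr rfl fun S hS => ?_
  rw [mem_Dj] at hP
  rw [h S (hP.1 S hS) fun h0 => hP.2.1 (h0 ▸ hS)]

theorem lead_zero {c : ℕ → ℕ} {J n : ℕ} (hn : ∑ i ∈ range J, c i ≤ n) : Lead c J n 0 := by
  classical
  intro I hI
  have hle : ∑ i ∈ I, c i ≤ n := (sum_le_sum_of_subset hI).trans hn
  have h1 : hs (n - ∑ i ∈ I, c i) * ∏ i ∈ I, (hs (c i) - 1) =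
      PowerSeries.X ^ I.card * (hs (n - ∑ i ∈ I, c i) *
        ∏ i ∈ I, PowerSeries.mk fun k => (Nat.multichoose (c i) (k + 1) : ℤ)) := by
    rw [prod_congr rfl fun i _ => hs_sub_one (c i), prod_mul_distrib, prod_const]
    ring
  refine ⟨fun D hD => ?_, ?_⟩
  · rw [vd_zero_ms D c n hle, h1, PowerSeries.coeff_X_pow_mul', if_neg (by omega)]
  · rw [vd_zero_ms _ c n hle, h1, PowerSeries.coeff_X_pow_mul', if_pos le_rfl, Nat.sub_self,
      PowerSeries.coeff_zero_eq_constantCoeff_apply, map_mul, map_prod]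
    have h2 : PowerSeries.constantCoeff (hs (n - ∑ i ∈ I, c i)) = 1 := by
      rw [← PowerSeries.coeff_zero_eq_constantCoeff_apply]
      unfold hs
      rw [PowerSeries.coeff_mk, Nat.multichoose_zero_right, Nat.cast_one]
    have h3 : ∀ i ∈ I, PowerSeries.constantCoeff
        (PowerSeries.mk fun k => (Nat.multichoose (c i) (k + 1) : ℤ)) = (c i : ℤ) := by
      intro i _
      rw [← PowerSeries.coeff_zero_eq_constantCoeff_apply, PowerSeries.coeff_mk, zero_add,
        Nat.multichoose_one_right]
    have h4 : FF (dnS c J 0) I = 1 := by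
      have h5 : ∀ S, dnS c J 0 S = 0 := by
        intro S
        unfold dnS npt
        simp
      have h6 : ∀ I : Finset ℕ, FF (dnS c J 0) I = 1 := by
        intro I
        induction I using Finset.induction_on with
        | empty => exact (isF_FF _).empty
        | insert i I hi ih =>
          rw [(isF_FF _).step I i hi, ih, sum_eq_zero fun B _ => by rw [h5, zero_mul], sub_zero]
      exact h6 I
    rw [h2, one_mul, prod_congr rfl h3, h4, mul_one]
    push_cast
    rfl

theorem npt_cons (k : Kd) (ms : Multiset Kd) (x : ℕ) (A : Finset ℕ) :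
    npt (k ::ₘ ms) x A = k.pts.count (x, A) + npt ms x A := by
  unfold npt
  rw [Multiset.cons_bind, Multiset.count_add]

theorem lead_ord {c : ℕ → ℕ} {J n : ℕ} (hc : ∀ i < J, 1 ≤ c i) {x : ℕ} {A : Finset ℕ}
    (hx : 1 ≤ x) (hA : A ⊆ range J) (hAx : (range J \ A).card ≤ x) {ms : Multiset Kd}
    (h : Lead c J n ms) : Lead c J n (Kd.ord x A ::ₘ ms) := by
  classical
  intro I hI
  obtain ⟨K, hK⟩ : ∃ K, K = range J \ A := ⟨_, rfl⟩
  have hIA : I ∩ A = I \ K := by
    ext i
    rw [mem_inter, mem_sdiff, hK, mem_sdiff, not_and_not_right]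
    exact ⟨fun h => ⟨h.1, fun _ => h.2⟩, fun h => ⟨h.1, h.2 (hI h.1)⟩⟩
  have hcard : (I \ K).card + (I ∩ K).card = I.card := card_sdiff_add_card_inter I K
  have hIK : (I ∩ K).card ≤ K.card := card_le_card inter_subset_right
  have hKx : K.card ≤ x := by rw [hK]; exact hAx
  have hKJ : K ⊆ range J := by rw [hK]; exact sdiff_subset
  have hsd : I \ K ⊆ range J := sdiff_subset.trans hI
  refine ⟨fun D hD => ?_, ?_⟩
  · rw [vd_ord, (h I hI).1 D hD, hIA]
    split_ifs with h1
    · rw [(h (I \ K) hsd).1 (D - x) (by omega), sub_zero]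
    · rfl
  · rw [vd_ord, hIA]
    have hAK : A = range J \ K := by
      rw [hK, Finset.sdiff_sdiff_eq_self hA]
    by_cases hKe : K.card = x
    · have hK0 : K ≠ ∅ := by
        rintro rfl
        rw [card_empty] at hKe
        omega
      have h2 : FF (dnS c J (Kd.ord x A ::ₘ ms)) I = FF (modK (dnS c J ms) K (1 / ∏ i ∈ K, (c i : ℚ))) I := by
        refine FF_congr' fun S hS _ => ?_
        unfold dnS modK
        rw [npt_cons]
        have h3 : (Kd.ord x A).pts = {(x, A)} := rfl
        rw [h3, Multiset.count_singleton]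
        have h4 : (S.card, range J \ S) = (x, A) ↔ S = K := by
          rw [Prod.mk.injEq]
          constructor
          · rintro ⟨_, h5⟩
            rw [hK, ← h5, Finset.sdiff_sdiff_eq_self (hS.trans hI)]
          · rintro rfl
            exact ⟨hKe, hAK.symm⟩
        by_cases h5 : S = K
        · rw [if_pos h5, if_pos (h4.2 h5), h5]
          push_cast
          ring
        · rw [if_neg h5, if_neg fun h6 => h5 (h4.1 h6)]
          push_cast
          ring
      have h3 := (isF_FF (dnS c J ms)).mod hK0 (1 / ∏ i ∈ K, (c i : ℚ))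
      rw [h2, (isF_FF _).unique h3]
      unfold modF
      by_cases hKI : K ⊆ I
      · have h4 : (I ∩ K).card = K.card := by rw [inter_eq_right.2 hKI]
        have h5 : I.card - x = (I \ K).card := by omega
        rw [if_pos (by omega), if_pos hKI, h5]
        push_cast
        rw [(h I hI).2, (h (I \ K) hsd).2]
        have h6 : ∏ i ∈ K, (c i : ℚ) ≠ 0 := by
          rw [prod_ne_zero_iff]
          intro i hi
          have := hc i (mem_range.1 (hKJ hi))
          positivity
        rw [← prod_sdiff hKI]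
        field_simp
      · have h4 : (I ∩ K).card < K.card := by
          apply card_lt_card
          rw [Finset.ssubset_iff_subset_ne]
          refine ⟨inter_subset_right, fun h5 => hKI ?_⟩
          rw [← h5]
          exact inter_subset_left
        rw [if_neg hKI, sub_zero]
        split_ifs with h5
        · rw [(h (I \ K) hsd).1 _ (by omega), sub_zero, (h I hI).2]
        · rw [sub_zero, (h I hI).2]
    · have h2 : FF (dnS c J (Kd.ord x A ::ₘ ms)) I = FF (dnS c J ms) I := by
        refine FF_congr' fun S hS _ => ?_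
        unfold dnS
        rw [npt_cons]
        have h3 : (Kd.ord x A).pts = {(x, A)} := rfl
        rw [h3, Multiset.count_singleton, if_neg, zero_add]
        rw [Prod.mk.injEq]
        rintro ⟨h4, h5⟩
        apply hKe
        have h6 : S = K := by rw [hK, ← h5, Finset.sdiff_sdiff_eq_self (hS.trans hI)]
        rw [← h6, h4]
      rw [h2]
      split_ifs with h5
      · rw [(h (I \ K) hsd).1 _ (by omega), sub_zero, (h I hI).2]
      · rw [sub_zero, (h I hI).2]

/-- Several ordinary objects. -/
theorem lead_ords {c : ℕ → ℕ} {J n : ℕ} (hc : ∀ i < J, 1 ≤ c i) {x : ℕ} (hx : 1 ≤ x)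
    (As : List (Finset ℕ)) (hA : ∀ A ∈ As, A ⊆ range J ∧ (range J \ A).card ≤ x) {ms : Multiset Kd}
    (h : Lead c J n ms) : Lead c J n (((As.map fun A => Kd.ord x A : List Kd) : Multiset Kd) + ms) := by
  induction As with
  | nil =>
    rw [List.map_nil, Multiset.coe_nil, zero_add]
    exact h
  | cons A As ih =>
    rw [List.map_cons, ← Multiset.cons_coe, Multiset.cons_add]
    have h1 := hA A List.mem_cons_self
    exact lead_ord hc hx h1.1 h1.2 (ih fun B hB => hA B (List.mem_cons_of_mem _ hB))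

/-- A cluster has the factors of its points and the factor of the trace. -/
theorem vd_cl (D : ℕ) (I : Finset ℕ) (c : ℕ → ℕ) (n e dl i : ℕ) (As : List (Finset ℕ))
    (hi : ∀ A ∈ As, i ∉ A) (ms : Multiset Kd) :
    vd D I c n (Kd.cl e dl i As ::ₘ ms) =
      vd D I c n (((As.map fun A => Kd.ord e A : List Kd) : Multiset Kd) + ms) -
        if i ∈ I ∧ trx e dl As.length ≤ D then
          vd (D - trx e dl As.length) (insert i (I.erase i ∩ inter As)) c n
              (((As.map fun A => Kd.ord e A : List Kd) : Multiset Kd) + ms) -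
            vd (D - trx e dl As.length) (I.erase i ∩ inter As) c n
              (((As.map fun A => Kd.ord e A : List Kd) : Multiset Kd) + ms) else 0 := by
  classical
  obtain ⟨t, ht⟩ : ∃ t, t = trx e dl As.length := ⟨_, rfl⟩
  obtain ⟨B, hB⟩ : ∃ B : Finset ℕ → PowerSeries ℤ, B = fun I' =>
      ((((As.map fun A => Kd.ord e A : List Kd) : Multiset Kd) + ms).map (Kd.P I')).prod *
        hs (n - ∑ i ∈ I', c i) := ⟨_, rfl⟩
  have hBv : ∀ D I, vd D I c n (((As.map fun A => Kd.ord e A : List Kd) : Multiset Kd) + ms) =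
      mob B D I := by
    intro D I
    rw [hB]
    rfl
  have hnot : i ∉ I.erase i ∩ inter As := by
    rw [mem_inter]
    exact fun h => notMem_erase i I h.1
  rw [hBv, hBv, hBv, ← ht]
  have h1 : ∀ I' : Finset ℕ, ((Kd.cl e dl i As ::ₘ ms).map (Kd.P I')).prod * hs (n - ∑ i ∈ I', c i) =
      B I' - (if i ∈ I' ∧ I'.erase i ⊆ inter As then PowerSeries.X ^ t * B I' else 0) := by
    intro I'
    have h2 : B I' = (As.map fun A => if I' ⊆ A then 1 - PowerSeries.X ^ e else (1 : PowerSeries ℤ)).prod *
        ((ms.map (Kd.P I')).prod * hs (n - ∑ i ∈ I', c i)) := by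
      rw [hB]
      simp only [Multiset.map_add, Multiset.prod_add, Multiset.map_coe, Multiset.prod_coe, List.map_map]
      rw [mul_assoc]
      rfl
    rw [Multiset.map_cons, Multiset.prod_cons, mul_assoc]
    by_cases h3 : i ∈ I'
    · have h4 : (As.map fun A => if I' ⊆ A then 1 - PowerSeries.X ^ e else (1 : PowerSeries ℤ)).prod =
          1 := by
        apply List.prod_eq_one
        intro y hy
        obtain ⟨A, hA, rfl⟩ := List.mem_map.1 hy
        rw [if_neg]
        exact fun h5 => hi A hA (h5 h3)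
      rw [h4, one_mul] at h2
      rw [h2]
      by_cases h5 : I'.erase i ⊆ inter As
      · rw [if_pos ⟨h3, h5⟩]
        have h6 : Kd.P I' (Kd.cl e dl i As) = 1 - PowerSeries.X ^ t := by
          show (if i ∈ I' then _ else _) = _
          rw [if_pos h3, if_pos h5, ht]
        rw [h6, sub_mul, one_mul]
      · rw [if_neg fun h => h5 h.2, sub_zero]
        have h6 : Kd.P I' (Kd.cl e dl i As) = 1 := by
          show (if i ∈ I' then _ else _) = _
          rw [if_pos h3, if_neg h5]
        rw [h6, one_mul]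
    · rw [if_neg fun h => h3 h.1, sub_zero, h2]
      have h6 : Kd.P I' (Kd.cl e dl i As) =
          (As.map fun A => if I' ⊆ A then 1 - PowerSeries.X ^ e else (1 : PowerSeries ℤ)).prod := by
        show (if i ∈ I' then _ else _) = _
        rw [if_neg h3]
      rw [h6]
  rw [vd_eq_mob]
  unfold mob
  simp only [h1, map_sub, mul_sub, sum_sub_distrib]
  congr 1
  by_cases h2 : i ∈ I ∧ t ≤ D
  · rw [if_pos h2]
    have h3 := mob_in B (D - t) hnot
    unfold mob at h3
    rw [← h3]
    have h4 : insert i (I.erase i ∩ inter As) ⊆ I := by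
      intro x hx
      rcases mem_insert.1 hx with rfl | hx
      · exact h2.1
      · exact mem_of_mem_erase (mem_inter.1 hx).1
    have h5 : ∀ I' ∈ I.powerset, (-1) ^ I'.card * PowerSeries.coeff D
        (if i ∈ I' ∧ I'.erase i ⊆ inter As then PowerSeries.X ^ t * B I' else 0) =
        if i ∈ I' ∧ I'.erase i ⊆ inter As then (-1) ^ I'.card * PowerSeries.coeff (D - t) (B I') else 0 := by
      intro I' _
      split_ifs
      · rw [PowerSeries.coeff_X_pow_mul', if_pos h2.2]
      · rw [map_zero, mul_zero]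
    rw [sum_congr rfl h5, ← sum_filter, ← sum_filter]
    refine sum_congr ?_ fun _ _ => rfl
    ext I'
    rw [mem_filter, mem_filter, mem_powerset, mem_powerset]
    constructor
    · rintro ⟨h6, h7, h8⟩
      refine ⟨?_, h7⟩
      intro x hx
      rw [mem_insert, mem_inter, mem_erase]
      by_cases hxi : x = i
      · exact Or.inl hxi
      · exact Or.inr ⟨⟨hxi, h6 hx⟩, h8 (mem_erase.2 ⟨hxi, hx⟩)⟩
    · rintro ⟨h6, h7⟩
      refine ⟨h6.trans h4, h7, ?_⟩
      intro x hx
      have h8 := h6 (mem_of_mem_erase hx)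
      rw [mem_insert, mem_inter] at h8
      rcases h8 with h8 | h8
      · exact absurd h8 (ne_of_mem_erase hx)
      · exact h8.2
  · rw [if_neg h2]
    refine sum_eq_zero fun I' hI' => ?_
    split_ifs with h3
    · have h4 : i ∈ I := (mem_powerset.1 hI') h3.1
      rw [PowerSeries.coeff_X_pow_mul', if_neg fun h5 => h2 ⟨h4, h5⟩, mul_zero]
    · rw [map_zero, mul_zero]

theorem npt_cl (e dl i : ℕ) (As : List (Finset ℕ)) (ms : Multiset Kd) :
    npt (Kd.cl e dl i As ::ₘ ms) = npt (((As.map fun A => Kd.ord e A : List Kd) : Multiset Kd) + ms) := by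
  funext x A
  unfold npt
  rw [Multiset.cons_bind, Multiset.add_bind]
  congr 2
  show ((As.map fun A => (e, A) : List (ℕ × Finset ℕ)) : Multiset (ℕ × Finset ℕ)) = _
  induction As with
  | nil => rfl
  | cons A As ih =>
    rw [List.map_cons, List.map_cons, ← Multiset.cons_coe, ← Multiset.cons_coe, Multiset.cons_bind, ih]
    rfl

theorem lead_cl {c : ℕ → ℕ} {J n : ℕ} (hc : ∀ i < J, 1 ≤ c i) {e dl i : ℕ} {As : List (Finset ℕ)}
    (he : 1 ≤ e) (hA : ∀ A ∈ As, A ⊆ (range J).erase i ∧ (range J \ A).card ≤ e)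
    (ht : ((range J).erase i \ inter As).card + 2 ≤ trx e dl As.length) {ms : Multiset Kd}
    (h : Lead c J n ms) : Lead c J n (Kd.cl e dl i As ::ₘ ms) := by
  classical
  have h0 := lead_ords hc he As (fun A hA' => ⟨(hA A hA').1.trans (erase_subset _ _), (hA A hA').2⟩) h
  have hi : ∀ A ∈ As, i ∉ A := fun A hA' h1 => notMem_erase i _ ((hA A hA').1 h1)
  have key : ∀ I ⊆ range J, ∀ D ≤ I.card, vd D I c n (Kd.cl e dl i As ::ₘ ms) =
      vd D I c n (((As.map fun A => Kd.ord e A : List Kd) : Multiset Kd) + ms) := by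
    intro I hI D hD
    rw [vd_cl D I c n e dl i As hi]
    split_ifs with h1
    · have h2 : I.erase i ∩ inter As ⊆ range J := inter_subset_left.trans ((erase_subset _ _).trans hI)
      have h3 : insert i (I.erase i ∩ inter As) ⊆ range J := insert_subset (hI h1.1) h2
      have hnot : i ∉ I.erase i ∩ inter As := by
        rw [mem_inter]
        exact fun h => notMem_erase i I h.1
      have h4 : (I.erase i \ inter As).card ≤ ((range J).erase i \ inter As).card :=
        card_le_card (sdiff_subset_sdiff (erase_subset_erase _ hI) le_rfl)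
      have h5 := card_sdiff_add_card_inter (I.erase i) (inter As)
      have h6 := card_erase_of_mem h1.1
      have h7 : 1 ≤ I.card := card_pos.2 ⟨i, h1.1⟩
      rw [(h0 _ h3).1 _ (by rw [card_insert_of_notMem hnot]; omega), (h0 _ h2).1 _ (by omega),
        sub_zero, sub_zero]
    · rw [sub_zero]
  have hd : dnS c J (Kd.cl e dl i As ::ₘ ms) =
      dnS c J (((As.map fun A => Kd.ord e A : List Kd) : Multiset Kd) + ms) := by
    funext S
    unfold dnS
    rw [npt_cl]
  intro I hI
  refine ⟨fun D hD => ?_, ?_⟩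
  · rw [key I hI D hD.le]
    exact (h0 I hI).1 D hD
  · rw [key I hI _ le_rfl, hd]
    exact (h0 I hI).2

end Pool.Agent.GD
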